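import Pool.Agent.W5h43.PP.Inf

/-! Isometries near the identity, seen from the mid-points. -/

set_option autoImplicit false

namespace Pool.Agent.W5h43.PP

open Pool.Agent.R118.PM Filter Topology

/-- a linear system for an angular velocity -/
theorem exists_omega {A B α β : E3} (h1 : inner ℝ α A = (0 : ℝ)) (h2 : inner ℝ β B = (0 : ℝ))
    (h3 : (inner ℝ α B : ℝ) + inner ℝ β A = 0) (h4 : cr A B ≠ 0) :
    ∃ w : E3, cr w A = α ∧ cr w B = β := by
  have hA : A ≠ 0 := by
    rintro rfl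
    exact h4 (cr_zero_left _)
  have hAA := (inner_self_pos hA).ne'
  set w0 : E3 := (inner ℝ A A : ℝ)⁻¹ • cr A α with hw0
  have e0 : cr w0 A = α := by
    rw [hw0, cr_smul_left, cr_cr, h1, zero_smul, sub_zero, smul_smul, inv_mul_cancel₀ hAA,
      one_smul]
  have e1 : cr w0 B = (inner ℝ A A : ℝ)⁻¹ • ((inner ℝ A B : ℝ) • α - (inner ℝ α B : ℝ) • A) := by
    rw [hw0, cr_smul_left, cr_cr]
  obtain ⟨s, hs⟩ := smul_cr (x := β - cr w0 B) (z := A) (w := B)
    (by
      rw [e1, inner_sub_left, real_inner_smul_left, inner_sub_left, real_inner_smul_left,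
        real_inner_smul_left, h1, mul_zero, zero_sub, mul_neg, sub_neg_eq_add]
      have : (inner ℝ A A : ℝ)⁻¹ * ((inner ℝ α B : ℝ) * inner ℝ A A) = inner ℝ α B := by
        field_simp
      rw [this]
      linarith)
    (by
      rw [e1, inner_sub_left, real_inner_smul_left, inner_sub_left, real_inner_smul_left,
        real_inner_smul_left, h2]
      ring) h4
  refine ⟨w0 + s • A, ?_, ?_⟩
  · rw [cr_add_left w0, cr_smul_left s A A, cr_self, smul_zero, add_zero, e0]
  · rw [cr_add_left w0, cr_smul_left s A B, ← hs]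
    abel

theorem isom_combo (h : E3 ≃ᵢ E3) (x0 x1 x2 : E3) (s t : ℝ) :
    h (x0 + s • (x1 - x0) + t • (x2 - x0)) =
      h x0 + s • (h x1 - h x0) + t • (h x2 - h x0) := by
  set f := h.toRealAffineIsometryEquiv.toAffineEquiv.toAffineMap with hf
  have hfx : ∀ x, f x = h x := fun x => rfl
  have key : ∀ x y : E3, f.linear (x - y) = h x - h y := by
    intro x y
    have := f.linearMap_vsub x y
    exact this
  have h1 : h (x0 + s • (x1 - x0) + t • (x2 - x0)) - h x0 =
      f.linear (s • (x1 - x0) + t • (x2 - x0)) := by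
    rw [← key]
    congr 1
    abel
  rw [map_add f.linear, map_smul f.linear, map_smul f.linear, key, key] at h1
  rw [sub_eq_iff_eq_add] at h1
  rw [h1]
  abel

theorem isom_inner (h : E3 ≃ᵢ E3) (x y z : E3) :
    (inner ℝ (h x - h z) (h y - h z) : ℝ) = inner ℝ (x - z) (y - z) := by
  have e1 : ‖h x - h z‖ = ‖x - z‖ := by rw [← dist_eq_norm, ← dist_eq_norm, h.dist_eq]
  have e2 : ‖h y - h z‖ = ‖y - z‖ := by rw [← dist_eq_norm, ← dist_eq_norm, h.dist_eq]
  have e3 : ‖h x - h y‖ = ‖x - y‖ := by rw [← dist_eq_norm, ← dist_eq_norm, h.dist_eq]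
  rw [real_inner_eq_norm_mul_self_add_norm_mul_self_sub_norm_sub_mul_self_div_two,
    real_inner_eq_norm_mul_self_add_norm_mul_self_sub_norm_sub_mul_self_div_two]
  have e4 : h x - h z - (h y - h z) = h x - h y := by abel
  have e5 : x - z - (y - z) = x - y := by abel
  rw [e4, e5, e1, e2, e3]

theorem skew_one {a a' : E3} (h : (inner ℝ a' a' : ℝ) = inner ℝ a a) :
    inner ℝ (a' - a) ((1 / 2 : ℝ) • (a + a')) = (0 : ℝ) := by
  rw [inner_smul_right, inner_add_right, inner_sub_left, inner_sub_left, h,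
    real_inner_comm a a']
  ring

theorem skew_two {a a' b b' : E3} (h : (inner ℝ a' b' : ℝ) = inner ℝ a b) :
    (inner ℝ (a' - a) ((1 / 2 : ℝ) • (b + b')) : ℝ) +
      inner ℝ (b' - b) ((1 / 2 : ℝ) • (a + a')) = 0 := by
  rw [inner_smul_right, inner_add_right, inner_sub_left, inner_sub_left,
    inner_smul_right, inner_add_right, inner_sub_left, inner_sub_left, h,
    real_inner_comm a b, real_inner_comm a' b', h, real_inner_comm a b',
    real_inner_comm a' b]
  ring

/-- an isometry restricted to a plane is a screw motion around the mid-points -/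
theorem exists_screw (h : E3 ≃ᵢ E3) (x0 x1 x2 : E3)
    (hne : cr ((1 / 2 : ℝ) • (x1 + h x1) - (1 / 2 : ℝ) • (x0 + h x0))
      ((1 / 2 : ℝ) • (x2 + h x2) - (1 / 2 : ℝ) • (x0 + h x0)) ≠ 0) :
    ∃ w T : E3, ∀ s t : ℝ, ∀ y, y = x0 + s • (x1 - x0) + t • (x2 - x0) →
      h y - y = cr w ((1 / 2 : ℝ) • (y + h y)) + T := by
  set a := x1 - x0 with ha
  set b := x2 - x0 with hb
  set a' := h x1 - h x0 with ha'
  set b' := h x2 - h x0 with hb'
  have i1 : (inner ℝ a' a' : ℝ) = inner ℝ a a := isom_inner h x1 x1 x0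
  have i2 : (inner ℝ b' b' : ℝ) = inner ℝ b b := isom_inner h x2 x2 x0
  have i3 : (inner ℝ a' b' : ℝ) = inner ℝ a b := isom_inner h x1 x2 x0
  have eA : (1 / 2 : ℝ) • (x1 + h x1) - (1 / 2 : ℝ) • (x0 + h x0) = (1 / 2 : ℝ) • (a + a') := by
    rw [ha, ha']; module
  have eB : (1 / 2 : ℝ) • (x2 + h x2) - (1 / 2 : ℝ) • (x0 + h x0) = (1 / 2 : ℝ) • (b + b') := by
    rw [hb, hb']; module
  rw [eA, eB] at hne
  obtain ⟨w, hw1, hw2⟩ := exists_omega (A := (1 / 2 : ℝ) • (a + a'))
    (B := (1 / 2 : ℝ) • (b + b')) (α := a' - a) (β := b' - b)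
    (skew_one i1) (skew_one i2) (skew_two i3) hne
  refine ⟨w, h x0 - x0 - cr w ((1 / 2 : ℝ) • (x0 + h x0)), fun s t y hy => ?_⟩
  have hy' : h y = h x0 + s • a' + t • b' := by
    rw [hy]; exact isom_combo h x0 x1 x2 s t
  have em : (1 / 2 : ℝ) • (y + h y) = (1 / 2 : ℝ) • (x0 + h x0) +
      s • ((1 / 2 : ℝ) • (a + a')) + t • ((1 / 2 : ℝ) • (b + b')) := by
    rw [hy', hy]; module
  rw [em, cr_add_right, cr_add_right, cr_smul_right s w, cr_smul_right t w, hw1, hw2, hy', hy]
  module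

end Pool.Agent.W5h43.PP
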