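import Pool.Agent.R118.PM.Main

/-! The cross product on Euclidean space. -/

set_option autoImplicit false

namespace Pool.Agent.W5h43.PP

open Pool.Agent.R118.PM

/-- the cross product -/
def cr (a b : E3) : E3 :=
  !₂[a 1 * b 2 - a 2 * b 1, a 2 * b 0 - a 0 * b 2, a 0 * b 1 - a 1 * b 0]

theorem cr0 (a b : E3) : cr a b 0 = a 1 * b 2 - a 2 * b 1 := by simp [cr]
theorem cr1 (a b : E3) : cr a b 1 = a 2 * b 0 - a 0 * b 2 := by simp [cr]
theorem cr2 (a b : E3) : cr a b 2 = a 0 * b 1 - a 1 * b 0 := by simp [cr]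

theorem ext3 {a b : E3} (h0 : a 0 = b 0) (h1 : a 1 = b 1) (h2 : a 2 = b 2) : a = b := by
  ext i
  fin_cases i
  · exact h0
  · exact h1
  · exact h2

theorem inner3 (a b : E3) : inner ℝ a b = a 0 * b 0 + a 1 * b 1 + a 2 * b 2 := by
  rw [PiLp.inner_apply, Fin.sum_univ_three]
  simp [mul_comm]

theorem cr_add_left (a b c : E3) : cr (a + b) c = cr a c + cr b c := by
  apply ext3 <;> simp [cr0, cr1, cr2] <;> ring

theorem cr_add_right (a b c : E3) : cr a (b + c) = cr a b + cr a c := by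
  apply ext3 <;> simp [cr0, cr1, cr2] <;> ring

theorem cr_sub_left (a b c : E3) : cr (a - b) c = cr a c - cr b c := by
  apply ext3 <;> simp [cr0, cr1, cr2] <;> ring

theorem cr_sub_right (a b c : E3) : cr a (b - c) = cr a b - cr a c := by
  apply ext3 <;> simp [cr0, cr1, cr2] <;> ring

theorem cr_smul_left (t : ℝ) (a b : E3) : cr (t • a) b = t • cr a b := by
  apply ext3 <;> simp [cr0, cr1, cr2] <;> ring

theorem cr_smul_right (t : ℝ) (a b : E3) : cr a (t • b) = t • cr a b := by
  apply ext3 <;> simp [cr0, cr1, cr2] <;> ring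

theorem cr_self (a : E3) : cr a a = 0 := by
  apply ext3 <;> simp [cr0, cr1, cr2] <;> ring

theorem cr_zero_right (a : E3) : cr a 0 = 0 := by
  apply ext3 <;> simp [cr0, cr1, cr2]

theorem cr_zero_left (a : E3) : cr 0 a = 0 := by
  apply ext3 <;> simp [cr0, cr1, cr2]

theorem cr_neg_left (a b : E3) : cr (-a) b = -cr a b := by
  apply ext3 <;> simp [cr0, cr1, cr2] <;> ring

theorem cr_anti (a b : E3) : cr a b = -cr b a := by
  apply ext3 <;> simp [cr0, cr1, cr2] <;> ring

theorem inner_cr_left (a b : E3) : inner ℝ a (cr a b) = 0 := by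
  rw [inner3, cr0, cr1, cr2]; ring

theorem inner_cr_right (a b : E3) : inner ℝ b (cr a b) = 0 := by
  rw [inner3, cr0, cr1, cr2]; ring

theorem inner_cr_cyc (a b c : E3) : inner ℝ a (cr b c) = inner ℝ b (cr c a) := by
  rw [inner3, inner3, cr0, cr1, cr2, cr0, cr1, cr2]; ring

theorem inner_cr_swap (a b c : E3) : inner ℝ a (cr b c) = -inner ℝ a (cr c b) := by
  rw [inner3, inner3, cr0, cr1, cr2, cr0, cr1, cr2]; ring

theorem cr_cr (a b c : E3) :
    cr (cr a b) c = (inner ℝ a c : ℝ) • b - (inner ℝ b c : ℝ) • a := by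
  rw [inner3, inner3]
  apply ext3 <;> simp [cr0, cr1, cr2] <;> ring

theorem cr_sum_right {ι : Type*} (s : Finset ι) (a : E3) (f : ι → E3) :
    cr a (∑ i ∈ s, f i) = ∑ i ∈ s, cr a (f i) := by
  classical
  induction s using Finset.induction_on with
  | empty => simp [cr_zero_right]
  | insert i s hi ih => rw [Finset.sum_insert hi, Finset.sum_insert hi, cr_add_right, ih]

theorem inner_self_pos {a : E3} (ha : a ≠ 0) : 0 < (inner ℝ a a : ℝ) := by
  exact real_inner_self_pos.2 ha

/-- if the cross product vanishes, the vectors are parallel -/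
theorem smul_of_cr_zero {a b : E3} (h : cr a b = 0) (hb : b ≠ 0) : ∃ t : ℝ, a = t • b := by
  have h1 := cr_cr a b b
  rw [h, cr_zero_left] at h1
  have hbb := inner_self_pos hb
  refine ⟨(inner ℝ a b : ℝ) / inner ℝ b b, ?_⟩
  have h2 : (inner ℝ b b : ℝ) • a = (inner ℝ a b : ℝ) • b := (sub_eq_zero.1 h1.symm).symm
  rw [div_eq_inv_mul, mul_smul, ← h2, smul_smul, inv_mul_cancel₀ hbb.ne', one_smul]

/-- a vector which is orthogonal to `z` and `w` is a multiple of their cross product -/
theorem smul_cr {x z w : E3} (h1 : inner ℝ x z = (0 : ℝ)) (h2 : inner ℝ x w = (0 : ℝ))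
    (h3 : cr z w ≠ 0) : ∃ t : ℝ, x = t • cr z w := by
  apply smul_of_cr_zero _ h3
  have h4 : cr (cr z w) x = 0 := by
    rw [cr_cr]
    rw [real_inner_comm x z, real_inner_comm x w, h1, h2]
    simp
  rw [cr_anti, h4, neg_zero]

theorem cr_ne_zero_of_inner {a b c : E3} (h : inner ℝ a (cr b c) ≠ (0 : ℝ)) : cr b c ≠ 0 := by
  intro h1
  rw [h1, inner_zero_right] at h
  exact h rfl

theorem continuous_cr {X : Type*} [TopologicalSpace X] {f g : X → E3} (hf : Continuous f)
    (hg : Continuous g) : Continuous fun x => cr (f x) (g x) := by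
  unfold cr
  fun_prop

end Pool.Agent.W5h43.PP
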