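import Pool.Agent.W5h43.PP.Cayley

/-! Panels which preserve all distances between the vertices are moved by one isometry. -/

set_option autoImplicit false

namespace Pool.Agent.W5h43.PP

open Pool.Agent.R118.PM Filter Topology

variable {ι : Type} [Fintype ι] {P : R118.PM.Poly ι}

/-- the reflection in the plane through `v` with normal `n` -/
noncomputable def refl (n v : E3) : E3 ≃ᵢ E3 :=
  ((IsometryEquiv.subRight v).trans
    ((ℝ ∙ n)ᗮ.reflection.toIsometryEquiv)).trans (IsometryEquiv.addRight v)

theorem refl_apply (n v x : E3) :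
    refl n v x = x - (2 * (inner ℝ n (x - v) / inner ℝ n n) : ℝ) • n := by
  have h1 : refl n v x = (ℝ ∙ n)ᗮ.reflection (x - v) + v := rfl
  rw [h1, Submodule.reflection_orthogonal_apply, Submodule.reflection_singleton_apply]
  have h2 : ((‖n‖ : ℝ) ^ 2) = inner ℝ n n := (real_inner_self_eq_norm_sq n).symm
  simp only [RCLike.ofReal_real_eq_id, id_eq, h2]
  module

/-- two isometries which agree at the vertices of a face agree on the face -/
theorem eq_on_face (hP : IsPolyhedron P) (i : ι) (f g : E3 ≃ᵢ E3)
    (h : ∀ v ∈ P.body.extremePoints ℝ, v ∈ P.face i → f v = g v) :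
    ∀ x ∈ P.face i, f x = g x := by
  have hcl : IsClosed {x | f x = g x} := isClosed_eq f.continuous g.continuous
  have hconv : Convex ℝ {x | f x = g x} := by
    intro x hx y hy a b _ _ hab
    have h1 := Convex.combo_affine_apply (x := x) (y := y)
      (f := f.toRealAffineIsometryEquiv.toAffineEquiv.toAffineMap) hab
    have h2 := Convex.combo_affine_apply (x := x) (y := y)
      (f := g.toRealAffineIsometryEquiv.toAffineEquiv.toAffineMap) hab
    have h1' : f (a • x + b • y) = a • f x + b • f y := h1
    have h2' : g (a • x + b • y) = a • g x + b • g y := h2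
    show f (a • x + b • y) = g (a • x + b • y)
    rw [h1', h2', show f x = g x from hx, show f y = g y from hy]
  exact face_hull hP i hconv hcl h

theorem exists_isometry [Nonempty ι] (hP : IsPolyhedron P) (G : ι → (E3 ≃ᵢ E3))
    (hd : ∀ i j, ∀ x ∈ P.body.extremePoints ℝ, ∀ y ∈ P.body.extremePoints ℝ, x ∈ P.face i →
      y ∈ P.face j → dist (G i x) (G j y) = dist x y) :
    ∃ h : E3 ≃ᵢ E3, ∀ i, ∀ x ∈ P.face i, G i x = h x := by
  classical
  obtain ⟨k⟩ := ‹Nonempty ι›
  obtain ⟨v, hv, hvk⟩ := face_vertex hP k
  obtain ⟨p, hp, q, hq, hpq⟩ := face_frame hP hvk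
  set n := P.n k with hn
  have hn0 : n ≠ 0 := n_ne_zero hP hvk
  have hnn := inner_self_pos hn0
  set F : ι → E3 → E3 := fun i x => (G k).symm (G i x) with hF
  -- a vertex is fixed or reflected
  have alt : ∀ i, ∀ x ∈ P.body.extremePoints ℝ, x ∈ P.face i →
      F i x = x ∨ F i x = refl n v x := by
    intro i x hx hxi
    set z := F i x with hz
    have hdist : ∀ y ∈ P.body.extremePoints ℝ, y ∈ P.face k → dist z y = dist x y := by
      intro y hy hyk
      have h1 := hd i k x hx y hy hxi hyk
      rw [← h1, hz]
      show dist ((G k).symm (G i x)) y = _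
      rw [← (G k).dist_eq, (G k).apply_symm_apply]
    have hin : ∀ y ∈ P.face k, (inner ℝ z z : ℝ) - inner ℝ x x = 2 * inner ℝ (z - x) y := by
      have hconv : Convex ℝ {y : E3 | (inner ℝ z z : ℝ) - inner ℝ x x = 2 * inner ℝ (z - x) y} := by
        intro y hy y' hy' s t _ _ hst
        show (inner ℝ z z : ℝ) - inner ℝ x x = 2 * inner ℝ (z - x) (s • y + t • y')
        have e1 : (inner ℝ z z : ℝ) - inner ℝ x x = 2 * inner ℝ (z - x) y := hy
        have e2 : (inner ℝ z z : ℝ) - inner ℝ x x = 2 * inner ℝ (z - x) y' := hy'
        rw [inner_add_right, inner_smul_right, inner_smul_right]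
        calc (inner ℝ z z : ℝ) - inner ℝ x x
            = s * (inner ℝ z z - inner ℝ x x) + t * (inner ℝ z z - inner ℝ x x) := by
              rw [← add_mul, hst, one_mul]
          _ = s * (2 * inner ℝ (z - x) y) + t * (2 * inner ℝ (z - x) y') := by
              nth_rewrite 1 [e1]; rw [e2]
          _ = _ := by ring
      have hcl : IsClosed {y : E3 | (inner ℝ z z : ℝ) - inner ℝ x x = 2 * inner ℝ (z - x) y} :=
        isClosed_eq continuous_const (by fun_prop)
      refine fun y hy => face_hull hP k hconv hcl (fun y hy hyk => ?_) hy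
      show (inner ℝ z z : ℝ) - inner ℝ x x = 2 * inner ℝ (z - x) y
      have h1 := hdist y hy hyk
      rw [dist_eq_norm, dist_eq_norm] at h1
      have h2 : (inner ℝ (z - y) (z - y) : ℝ) = inner ℝ (x - y) (x - y) := by
        rw [real_inner_self_eq_norm_sq, real_inner_self_eq_norm_sq, h1]
      rw [real_inner_sub_sub_self, real_inner_sub_sub_self] at h2
      rw [inner_sub_left]
      linarith
    have e1 := hin v hvk
    have e2 := hin p hp
    have e3 := hin q hq
    obtain ⟨t, ht⟩ := smul_cr (x := z - x) (z := p - v) (w := q - v)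
      (by rw [inner_sub_right]; linarith) (by rw [inner_sub_right]; linarith) hpq
    obtain ⟨s, hs⟩ := smul_cr (x := n) (z := p - v) (w := q - v)
      (by rw [inner_sub_right, hp.2, hvk.2, sub_self])
      (by rw [inner_sub_right, hq.2, hvk.2, sub_self]) hpq
    have hs0 : s ≠ 0 := by
      rintro rfl
      exact hn0 (by rw [hs, zero_smul])
    have hzx : z - x = (t / s) • n := by
      rw [ht, hs, smul_smul, div_mul_cancel₀ _ hs0]
    set r := t / s with hr
    have hzr : z = x + r • n := by rw [← hzx]; abel
    have e4 : r * (2 * inner ℝ n (x - v) + r * inner ℝ n n) = 0 := by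
      have e5 := e1
      rw [hzx, real_inner_smul_left] at e5
      have e6 : (inner ℝ z z : ℝ) = inner ℝ x x + 2 * r * inner ℝ n x + r * r * inner ℝ n n := by
        rw [hzr, inner_add_left, inner_add_right, inner_add_right, inner_smul_right,
          real_inner_smul_left, real_inner_smul_left, inner_smul_right, real_inner_comm n x]
        ring
      rw [e6] at e5
      rw [inner_sub_right]
      linarith
    rcases mul_eq_zero.1 e4 with h0 | h0
    · left
      rw [hzr, h0, zero_smul, add_zero]
    · right
      rw [refl_apply, hzr]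
      have : r = -(2 * (inner ℝ n (x - v) / inner ℝ n n)) := by
        field_simp
        linarith
      rw [this, neg_smul]
      exact (sub_eq_add_neg _ _).symm
  have hneg : ∀ x ∈ P.body, x ∉ P.face k → (inner ℝ n (x - v) : ℝ) < 0 := by
    intro x hx hxk
    have h1 : (inner ℝ n x : ℝ) < P.b k := lt_of_le_of_ne (hx k) fun h => hxk ⟨hx, h⟩
    rw [inner_sub_right, hvk.2]
    linarith
  have hon : ∀ x ∈ P.face k, refl n v x = x := by
    intro x hx
    rw [refl_apply, inner_sub_right, hx.2, hvk.2, sub_self, zero_div, mul_zero, zero_smul,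
      sub_zero]
  by_cases hex : ∃ i, ∃ x ∈ P.body.extremePoints ℝ, x ∈ P.face i ∧ x ∉ P.face k ∧ F i x = x
  · obtain ⟨i0, x0, hx0, hx0i, hx0k, hFx0⟩ := hex
    have hall : ∀ i, ∀ x ∈ P.body.extremePoints ℝ, x ∈ P.face i → F i x = x := by
      intro i x hx hxi
      rcases alt i x hx hxi with h | h
      · exact h
      · by_cases hxk : x ∈ P.face k
        · rw [h, hon x hxk]
        · exfalso
          have h1 : dist (F i x) (F i0 x0) = dist x x0 := by
            show dist ((G k).symm (G i x)) ((G k).symm (G i0 x0)) = _
            rw [(G k).symm.dist_eq, hd i i0 x hx x0 hx0 hxi hx0i]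
          rw [hFx0, h, dist_eq_norm, dist_eq_norm] at h1
          have h2 : (inner ℝ (refl n v x - x0) (refl n v x - x0) : ℝ) =
              inner ℝ (x - x0) (x - x0) := by
            rw [real_inner_self_eq_norm_sq, real_inner_self_eq_norm_sq, h1]
          set r : ℝ := 2 * (inner ℝ n (x - v) / inner ℝ n n) with hr
          have h3 : refl n v x - x0 = (x - x0) - r • n := by
            rw [refl_apply]; abel
          rw [h3, real_inner_sub_sub_self, inner_smul_right, real_inner_smul_left,
            inner_smul_right] at h2
          have h4 := hneg x hx.1 hxk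
          have h5 := hneg x0 hx0.1 hx0k
          have h6 : (inner ℝ (x - x0) n : ℝ) = inner ℝ n (x - v) - inner ℝ n (x0 - v) := by
            rw [real_inner_comm, ← inner_sub_right]
            congr 1
            abel
          have h7 : r * inner ℝ n n = 2 * inner ℝ n (x - v) := by
            rw [hr]; field_simp
          have h8 : r < 0 := by
            rw [hr]
            have : (inner ℝ n (x - v) : ℝ) / inner ℝ n n < 0 := div_neg_of_neg_of_pos h4 hnn
            linarith
          rw [h6] at h2
          have h9 : r * (2 * inner ℝ n (x0 - v)) = 0 := by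
            have : r * (r * inner ℝ n n) = r * (2 * inner ℝ n (x - v)) := by rw [h7]
            linarith
          rcases mul_eq_zero.1 h9 with h10 | h10
          · exact h8.ne h10
          · linarith
    refine ⟨G k, fun i => eq_on_face hP i _ _ fun x hx hxi => ?_⟩
    have h1 := hall i x hx hxi
    have h2 : (G k).symm (G i x) = x := h1
    rw [← h2, (G k).apply_symm_apply]
    rw [h2]
  · push Not at hex
    refine ⟨(refl n v).trans (G k), fun i => eq_on_face hP i _ _ fun x hx hxi => ?_⟩
    have h1 : F i x = refl n v x := by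
      rcases alt i x hx hxi with h | h
      · by_cases hxk : x ∈ P.face k
        · rw [h, hon x hxk]
        · exact absurd h (hex i x hx hxi hxk)
      · exact h
    have h2 : (G k).symm (G i x) = refl n v x := h1
    show G i x = G k (refl n v x)
    rw [← h2, (G k).apply_symm_apply]

end Pool.Agent.W5h43.PP
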