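import Pool.Agent.W5h43.PP.Star

/-! Vertices, faces and edges. -/

set_option autoImplicit false

namespace Pool.Agent.W5h43.PP

open Pool.Agent.R118.PM Filter Topology

variable {ι : Type} [Fintype ι] {P : R118.PM.Poly ι}

theorem face_compact (hP : IsPolyhedron P) (i : ι) : IsCompact (P.face i) :=
  Metric.isCompact_of_isClosed_isBounded (face_closed P i) (hP.bounded.subset (face_sub P i))

theorem inter_extreme (i j : ι) :
    (P.face i ∩ P.face j).extremePoints ℝ ⊆ P.body.extremePoints ℝ :=
  ((face_extreme P i).inter (face_extreme P j)).extremePoints_subset_extremePoints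

theorem inter_hull (hP : IsPolyhedron P) (i j : ι) {H : Set E3} (hH : Convex ℝ H)
    (hc : IsClosed H)
    (h : ∀ v ∈ P.body.extremePoints ℝ, v ∈ P.face i → v ∈ P.face j → v ∈ H) :
    P.face i ∩ P.face j ⊆ H := by
  have hcpt : IsCompact (P.face i ∩ P.face j) := (face_compact hP i).inter (face_compact hP j)
  have hconv : Convex ℝ (P.face i ∩ P.face j) := (face_convex P i).inter (face_convex P j)
  intro x hx
  rw [← closure_convexHull_extremePoints hcpt hconv] at hx
  refine (closure_minimal (convexHull_min ?_ hH) hc) hx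
  intro v hv
  exact h v (inter_extreme i j hv) hv.1.1 hv.1.2

theorem face_hull (hP : IsPolyhedron P) (i : ι) {H : Set E3} (hH : Convex ℝ H)
    (hc : IsClosed H) (h : ∀ v ∈ P.body.extremePoints ℝ, v ∈ P.face i → v ∈ H) :
    P.face i ⊆ H := by
  have := inter_hull hP i i hH hc (fun v hv hi _ => h v hv hi)
  rwa [Set.inter_self] at this

theorem face_vertex (hP : IsPolyhedron P) (i : ι) :
    ∃ v ∈ P.body.extremePoints ℝ, v ∈ P.face i := by
  have hne : (P.face i).Nonempty := by
    by_contra hne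
    have hd := hP.dim i
    rw [Set.not_nonempty_iff_eq_empty] at hne
    rw [hne, vectorSpan_empty, finrank_bot] at hd
    omega
  obtain ⟨v, hv⟩ := (face_compact hP i).extremePoints_nonempty hne
  exact ⟨v, (face_extreme P i).extremePoints_subset_extremePoints hv, hv.1⟩

theorem vertex_face (hP : IsPolyhedron P) {v : E3} (hv : v ∈ P.body.extremePoints ℝ) :
    ∃ i, v ∈ P.face i := by
  obtain ⟨c, hL⟩ := exists_lvl hP hv
  by_contra h
  push Not at h
  have h0 : nrm P v = 0 := by
    unfold nrm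
    exact Finset.sum_eq_zero fun i _ => if_neg (h i)
  obtain ⟨y, -, hy⟩ := hL.int
  have := hL.lt
  rw [h0, inner_zero_left] at this hy
  linarith

theorem vertices_finite (P : R118.PM.Poly ι) : (P.body.extremePoints ℝ).Finite := by
  classical
  refine Set.Finite.of_finite_image (f := fun v => Finset.univ.filter fun i => v ∈ P.face i)
    (Set.toFinite _) ?_
  intro v hv w hw h
  by_contra hne
  have h1 : nrm P v = nrm P w := by
    unfold nrm
    refine Finset.sum_congr rfl fun i _ => ?_
    have h2 : (v ∈ P.face i) ↔ (w ∈ P.face i) := by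
      have h3 := congrArg (fun s : Finset ι => i ∈ s) h
      simpa using h3
    by_cases hi : v ∈ P.face i
    · rw [if_pos hi, if_pos (h2.1 hi)]
    · rw [if_neg hi, if_neg fun h4 => hi (h2.2 h4)]
  have h2 := nrm_lt P hv hw.1 (Ne.symm hne)
  have h3 := nrm_lt P hw hv.1 hne
  rw [h1] at h2
  exact lt_asymm h2 h3

/-- three points of a face spanning its plane -/
theorem face_frame (hP : IsPolyhedron P) {v : E3} {i : ι} (hv : v ∈ P.face i) :
    ∃ p ∈ P.face i, ∃ q ∈ P.face i, cr (p - v) (q - v) ≠ 0 := by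
  obtain ⟨p, hp, q, hq, hpv, hqv, h⟩ := two_points hP hv
  refine ⟨p, hp, q, hq, fun h0 => ?_⟩
  obtain ⟨t, ht⟩ := smul_of_cr_zero h0 (sub_ne_zero.2 hqv)
  exact one_ne_zero (h 1 t (by rw [one_smul]; exact ht))

/-- an edge lies on a line -/
theorem edge_line (hP : IsPolyhedron P) {i j : ι} (hij : i ≠ j) {x q y : E3}
    (hxi : x ∈ P.face i) (hxj : x ∈ P.face j) (hqi : q ∈ P.face i) (hqj : q ∈ P.face j)
    (hyi : y ∈ P.face i) (hyj : y ∈ P.face j) (hqx : q ≠ x) : ∃ s : ℝ, y - x = s • (q - x) := by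
  have hn := cr_n_ne_zero hP hij hxi hxj
  obtain ⟨r, hr⟩ := smul_cr (x := q - x) (z := P.n i) (w := P.n j)
    (by rw [real_inner_comm, inner_sub_right, hqi.2, hxi.2, sub_self])
    (by rw [real_inner_comm, inner_sub_right, hqj.2, hxj.2, sub_self]) hn
  obtain ⟨s, hs⟩ := smul_cr (x := y - x) (z := P.n i) (w := P.n j)
    (by rw [real_inner_comm, inner_sub_right, hyi.2, hxi.2, sub_self])
    (by rw [real_inner_comm, inner_sub_right, hyj.2, hxj.2, sub_self]) hn
  have hr0 : r ≠ 0 := by
    rintro rfl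
    exact hqx (sub_eq_zero.1 (by rw [hr, zero_smul]))
  refine ⟨s / r, ?_⟩
  rw [hr, hs, smul_smul, div_mul_cancel₀ _ hr0]

/-- if a linear function is smaller somewhere below the section, it is smaller along an edge -/
theorem exists_lower (hP : IsPolyhedron P) {v : E3} {c : ℝ} (hL : Lvl P v c)
    (hv : v ∈ P.body.extremePoints ℝ)
    {p q : {i // v ∈ P.face i} → E3} {t : {i // v ∈ P.face i} → ℝ}
    {σ : Equiv.Perm {i // v ∈ P.face i}}
    (hs : ∀ i : {i // v ∈ P.face i}, p i ∈ P.face i ∧ q i ∈ P.face i ∧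
        inner ℝ (nrm P v) (p i) = c ∧
        inner ℝ (nrm P v) (q i) = c ∧ 0 < t i ∧ q i - p i = t i • cr (nrm P v) (P.n i) ∧
        p (σ i) = q i ∧ (i : ι) ≠ σ i ∧ p i ∉ P.face (σ i) ∧ q i ≠ v ∧
        ∀ y ∈ P.face i, inner ℝ (nrm P v) y = c → ∃ s : ℝ, 0 ≤ s ∧ s ≤ 1 ∧
          y = p i + s • (q i - p i))
    {b y : E3} (hy : y ∈ P.body) (hyc : inner ℝ (nrm P v) y < c)
    (hb : (inner ℝ b y : ℝ) < inner ℝ b v) : ∃ i, (inner ℝ b (q i) : ℝ) < inner ℝ b v := by
  by_contra hcon
  push Not at hcon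
  set a := nrm P v with ha
  set S : Set E3 := P.body ∩ {z | inner ℝ a z = c} with hS
  have hbcl := body_closed P
  have hcpt : IsCompact S := (Metric.isCompact_of_isClosed_isBounded hbcl hP.bounded).inter_right
    (isClosed_eq (by fun_prop) continuous_const)
  have hplane : Convex ℝ {z : E3 | inner ℝ a z = c} := by
    intro x hx y hy s t hs ht hst
    show inner ℝ a (s • x + t • y) = c
    rw [inner_add_right, inner_smul_right, inner_smul_right, show inner ℝ a x = c from hx,
      show inner ℝ a y = c from hy, ← add_mul, hst, one_mul]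
  have hconv : Convex ℝ S := (body_convex P).inter hplane
  have hH : Convex ℝ {z : E3 | (inner ℝ b v : ℝ) ≤ inner ℝ b z} := by
    intro x hx y hy s t hs ht hst
    show (inner ℝ b v : ℝ) ≤ inner ℝ b (s • x + t • y)
    rw [inner_add_right, inner_smul_right, inner_smul_right]
    have h1 := mul_le_mul_of_nonneg_left (show (inner ℝ b v : ℝ) ≤ inner ℝ b x from hx) hs
    have h2 := mul_le_mul_of_nonneg_left (show (inner ℝ b v : ℝ) ≤ inner ℝ b y from hy) ht
    calc (inner ℝ b v : ℝ) = s * inner ℝ b v + t * inner ℝ b v := by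
          rw [← add_mul, hst, one_mul]
      _ ≤ _ := add_le_add h1 h2
  have hHc : IsClosed {z : E3 | (inner ℝ b v : ℝ) ≤ inner ℝ b z} :=
    isClosed_le continuous_const (by fun_prop)
  have hsub : S ⊆ {z : E3 | (inner ℝ b v : ℝ) ≤ inner ℝ b z} := by
    intro x hx
    rw [← closure_convexHull_extremePoints hcpt hconv] at hx
    refine (closure_minimal (convexHull_min ?_ hH) hHc) hx
    intro s hs'
    have hsS : s ∈ S := hs'.1
    have hpq : ∀ i, (inner ℝ b v : ℝ) ≤ inner ℝ b (p i) := by
      intro i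
      have h1 := (hs (σ.symm i)).2.2.2.2.2.2.1
      rw [Equiv.apply_symm_apply] at h1
      rw [h1]
      exact hcon _
    by_cases hf : ∃ k, s ∈ P.face k
    · obtain ⟨k, hk⟩ := hf
      have hvk : v ∈ P.face k := by
        by_contra h
        exact (hL.far k h s hk).ne hsS.2
      obtain ⟨h1, h2, h3, h4, h5, h6, h7, h8, h9, h10, h11⟩ := hs ⟨k, hvk⟩
      obtain ⟨θ, hθ0, hθ1, hθ⟩ := h11 s hk hsS.2
      by_cases e0 : θ = 0
      · rw [hθ, e0, zero_smul, add_zero]
        exact hpq _
      by_cases e1 : θ = 1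
      · rw [hθ, e1, one_smul, add_sub_cancel]
        exact hcon _
      have hseg : s ∈ openSegment ℝ (p ⟨k, hvk⟩) (q ⟨k, hvk⟩) := by
        refine ⟨1 - θ, θ, by
          have := lt_of_le_of_ne hθ1 e1; linarith, lt_of_le_of_ne hθ0 (Ne.symm e0), by ring, ?_⟩
        rw [hθ]; module
      have h12 := hs'.2 ⟨h1.1, h3⟩ ⟨h2.1, h4⟩ hseg
      rw [← h12]
      exact hpq _
    · exfalso
      push Not at hf
      have hlt : ∀ j, inner ℝ (P.n j) s < P.b j := fun j =>
        lt_of_le_of_ne (hsS.1 j) fun h => hf j ⟨hsS.1, h⟩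
      obtain ⟨k, hk⟩ := vertex_face hP hv
      obtain ⟨h1, h2, h3, h4, h5, h6, h7, h8, h9, h10, h11⟩ := hs ⟨k, hk⟩
      set d := q ⟨k, hk⟩ - p ⟨k, hk⟩ with hd
      have hd0 : d ≠ 0 := by
        rw [h6]
        intro h
        rcases smul_eq_zero.1 h with h | h
        · exact h5.ne' h
        · exact d_ne_zero hP hL hk h
      have had : inner ℝ a d = (0 : ℝ) := by rw [hd, inner_sub_right, h3, h4, sub_self]
      have hev : ∀ᶠ ε in 𝓝 (0 : ℝ), ∀ j, inner ℝ (P.n j) (s + ε • d) < P.b j := by
        rw [Filter.eventually_all]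
        intro j
        have hc : Continuous fun ε : ℝ => (inner ℝ (P.n j) (s + ε • d) : ℝ) := by fun_prop
        have h0 : (inner ℝ (P.n j) (s + (0 : ℝ) • d) : ℝ) < P.b j := by
          rw [zero_smul, add_zero]; exact hlt j
        exact hc.continuousAt.eventually_lt continuousAt_const h0
      have hev' : ∀ᶠ ε in 𝓝 (0 : ℝ), ∀ j, inner ℝ (P.n j) (s + (-ε) • d) < P.b j := by
        have : Tendsto (fun ε : ℝ => -ε) (𝓝 0) (𝓝 0) := by
          simpa using (continuous_neg (G := ℝ)).tendsto 0
        exact this.eventually hev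
      obtain ⟨ε, ⟨hε1, hε3⟩, hε2⟩ := (((hev.and hev').filter_mono
        (nhdsWithin_le_nhds (s := Set.Ioi 0))).and self_mem_nhdsWithin).exists
      have hε0 : 0 < ε := hε2
      have m1 : s + ε • d ∈ S := ⟨fun j => (hε1 j).le, by
        show inner ℝ a (s + ε • d) = c
        rw [inner_add_right, inner_smul_right, had, mul_zero, add_zero]; exact hsS.2⟩
      have m2 : s + (-ε) • d ∈ S := ⟨fun j => (hε3 j).le, by
        show inner ℝ a (s + (-ε) • d) = c
        rw [inner_add_right, inner_smul_right, had, mul_zero, add_zero]; exact hsS.2⟩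
      have hseg : s ∈ openSegment ℝ (s + ε • d) (s + (-ε) • d) := by
        refine ⟨1 / 2, 1 / 2, by norm_num, by norm_num, by norm_num, ?_⟩
        module
      have h12 := hs'.2 m1 m2 hseg
      have h13 : ε • d = 0 := by
        have : s + ε • d - s = 0 := sub_eq_zero.2 h12
        rwa [add_sub_cancel_left] at this
      rcases smul_eq_zero.1 h13 with h | h
      · exact hε0.ne' h
      · exact hd0 h
  -- a point of the section on the segment from `v` to `y`
  have hlt := hL.lt
  set θ := (inner ℝ a v - c) / (inner ℝ a v - inner ℝ a y) with hθ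
  have hden : 0 < (inner ℝ a v - inner ℝ a y : ℝ) := by linarith
  have hθ0 : 0 < θ := div_pos (by linarith) hden
  have hθ1 : θ < 1 := by rw [hθ, div_lt_one hden]; linarith
  have hmem : (1 - θ) • v + θ • y ∈ S := by
    refine ⟨body_convex P hv.1 hy (by linarith) hθ0.le (by ring), ?_⟩
    show inner ℝ a ((1 - θ) • v + θ • y) = c
    rw [inner_add_right, inner_smul_right, inner_smul_right]
    have : θ * (inner ℝ a v - inner ℝ a y) = inner ℝ a v - c := by
      rw [hθ, div_mul_cancel₀ _ hden.ne']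
    linarith
  have h1 : (inner ℝ b v : ℝ) ≤ inner ℝ b ((1 - θ) • v + θ • y) := hsub hmem
  rw [inner_add_right, inner_smul_right, inner_smul_right] at h1
  nlinarith

end Pool.Agent.W5h43.PP
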