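import Pool.Agent.W5h43.PP.Hull

/-! Infinitesimal rigidity of convex polyhedra by a discrete maximum principle. -/

set_option autoImplicit false

namespace Pool.Agent.W5h43.PP

open Pool.Agent.R118.PM Filter Topology

variable {ι : Type} [Fintype ι] {P : R118.PM.Poly ι}

/-- velocities `x ↦ w i × x + T i` of the panels which agree at common vertices -/
def Flex (P : R118.PM.Poly ι) (w T : ι → E3) : Prop :=
  ∀ i j, ∀ x ∈ P.body.extremePoints ℝ, x ∈ P.face i → x ∈ P.face j →
    cr (w i) x + T i = cr (w j) x + T j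

/-- velocities of the panels at the points of a face are affine -/
theorem flex_edge (hP : IsPolyhedron P) {w T : ι → E3} (h : Flex P w T) (i j : ι) :
    ∀ x ∈ P.face i ∩ P.face j, cr (w i) x + T i = cr (w j) x + T j := by
  have hcl : IsClosed {x : E3 | cr (w i) x + T i = cr (w j) x + T j} :=
    isClosed_eq ((continuous_cr continuous_const continuous_id).add continuous_const)
      ((continuous_cr continuous_const continuous_id).add continuous_const)
  have hconv : Convex ℝ {x : E3 | cr (w i) x + T i = cr (w j) x + T j} := by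
    intro x hx y hy s t _ _ hst
    have hx' : cr (w i) x + T i = cr (w j) x + T j := hx
    have hy' : cr (w i) y + T i = cr (w j) y + T j := hy
    show cr (w i) (s • x + t • y) + T i = cr (w j) (s • x + t • y) + T j
    rw [cr_add_right, cr_add_right, cr_smul_right, cr_smul_right, cr_smul_right, cr_smul_right]
    have e1 : T i = s • T i + t • T i := by rw [← add_smul, hst, one_smul]
    have e2 : T j = s • T j + t • T j := by rw [← add_smul, hst, one_smul]
    calc s • cr (w i) x + t • cr (w i) y + T i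
        = s • (cr (w i) x + T i) + t • (cr (w i) y + T i) := by
          nth_rewrite 1 [e1]; module
      _ = s • (cr (w j) x + T j) + t • (cr (w j) y + T j) := by rw [hx', hy']
      _ = s • cr (w j) x + t • cr (w j) y + T j := by
          nth_rewrite 3 [e2]; module
  exact inter_hull hP i j hconv hcl (fun v hv hi hj => h i j v hv hi hj)

omit [Fintype ι] in
theorem flex_neg {w T : ι → E3} (h : Flex P w T) : Flex P (fun i => -w i) (fun i => -T i) := by
  intro i j x hx hi hj
  show cr (-w i) x + -T i = cr (-w j) x + -T j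
  rw [cr_neg_left, cr_neg_left, ← neg_add, ← neg_add, h i j x hx hi hj]

open scoped Classical in
/-- the velocity at a boundary point -/
noncomputable def vel (P : R118.PM.Poly ι) (w T : ι → E3) (x : E3) : E3 :=
  if h : ∃ i, x ∈ P.face i then cr (w h.choose) x + T h.choose else 0

theorem vel_eq {w T : ι → E3} (h : Flex P w T) {x : E3}
    (hx : x ∈ P.body.extremePoints ℝ) {i : ι} (hi : x ∈ P.face i) :
    vel P w T x = cr (w i) x + T i := by
  have h1 : ∃ i, x ∈ P.face i := ⟨i, hi⟩
  unfold vel
  rw [dif_pos h1]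
  exact h _ _ x hx h1.choose_spec hi

/-- **The maximum principle.**  The velocities never increase the distance between two vertices. -/
theorem radial_nonpos (hP : IsPolyhedron P) {w T : ι → E3} (h : Flex P w T) {v0 : E3}
    (hv0 : v0 ∈ P.body.extremePoints ℝ) :
    ∀ x ∈ P.body.extremePoints ℝ,
      (inner ℝ (vel P w T x - vel P w T v0) (x - v0) : ℝ) ≤ 0 := by
  classical
  set u := vel P w T with hu
  set r : E3 → ℝ := fun x => inner ℝ (u x - u v0) (x - v0) with hr
  set b : E3 := -nrm P v0 with hb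
  set l : E3 → ℝ := fun x => inner ℝ b (x - v0) with hl
  have hlpos : ∀ x ∈ P.body, x ≠ v0 → 0 < l x := by
    intro x hx hxv
    have h1 := nrm_lt P hv0 hx hxv
    show (0 : ℝ) < inner ℝ (-nrm P v0) (x - v0)
    rw [inner_neg_left, inner_sub_right]
    linarith
  by_contra hcon
  push Not at hcon
  obtain ⟨x1, hx1, hx1r⟩ := hcon
  have hx1v : x1 ≠ v0 := by
    rintro rfl
    simp at hx1r
  set A : Set E3 := P.body.extremePoints ℝ \ {v0} with hA
  have hAfin : A.Finite := (vertices_finite P).subset Set.sdiff_subset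
  obtain ⟨x2, hx2, hmax⟩ := Set.exists_max_image A (fun x => r x / l x) hAfin ⟨x1, hx1, hx1v⟩
  set M := r x2 / l x2 with hM
  have hMpos : 0 < M := by
    have h1 : 0 < r x1 / l x1 := div_pos hx1r (hlpos x1 hx1.1 hx1v)
    exact h1.trans_le (hmax x1 ⟨hx1, hx1v⟩)
  have hle : ∀ x ∈ A, r x - M * l x ≤ 0 := by
    intro x hx
    have h1 := hmax x hx
    rw [div_le_iff₀ (hlpos x hx.1.1 hx.2)] at h1
    linarith
  set A' : Set E3 := {x | x ∈ A ∧ r x - M * l x = 0} with hA'
  have hA'fin : A'.Finite := hAfin.subset fun x hx => hx.1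
  have hx2' : x2 ∈ A' := by
    refine ⟨hx2, ?_⟩
    have := (hlpos x2 hx2.1.1 hx2.2).ne'
    rw [hM]
    field_simp
    ring
  obtain ⟨x, hx, hmin⟩ := Set.exists_min_image A' l hA'fin ⟨x2, hx2'⟩
  have hxv : x ∈ P.body.extremePoints ℝ := hx.1.1
  have hxne : x ≠ v0 := hx.1.2
  have hlx := hlpos x hxv.1 hxne
  -- `x` and `v0` have no common face
  have hsep : ∀ i, x ∈ P.face i → v0 ∉ P.face i := by
    intro i hi h0
    have h1 : r x = 0 := by
      show (inner ℝ (u x - u v0) (x - v0) : ℝ) = 0
      rw [hu, vel_eq h hxv hi, vel_eq h hv0 h0]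
      have : cr (w i) x + T i - (cr (w i) v0 + T i) = cr (w i) (x - v0) := by
        rw [cr_sub_right]; abel
      rw [this, real_inner_comm]
      exact inner_cr_right _ _
    have h2 := hx.2
    rw [h1] at h2
    nlinarith
  obtain ⟨c, hL⟩ := exists_lvl hP hxv
  obtain ⟨p, q, t, σ, hs⟩ := star hP hL
  set a := nrm P x with ha
  set z := x - v0 with hz
  have hz0 : z ≠ 0 := sub_ne_zero.2 hxne
  set W : {i // x ∈ P.face i} → E3 := fun i => q i - v0 with hW
  have hgap : ∀ i : {i // x ∈ P.face i}, 0 < P.b i - inner ℝ (P.n i) v0 := by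
    intro i
    have h1 := hv0.1 i
    have h2 : inner ℝ (P.n i) v0 ≠ P.b i := fun h3 => hsep i i.2 ⟨hv0.1, h3⟩
    exact sub_pos.2 (lt_of_le_of_ne h1 h2)
  set ν : {i // x ∈ P.face i} → E3 := fun i => (P.b i - inner ℝ (P.n i) v0)⁻¹ • P.n i with hν
  have ν_one : ∀ i : {i // x ∈ P.face i}, ∀ y ∈ P.face i, inner ℝ (ν i) (y - v0) = (1 : ℝ) := by
    intro i y hy
    show (inner ℝ ((P.b i - inner ℝ (P.n i) v0)⁻¹ • P.n i) (y - v0) : ℝ) = 1
    rw [real_inner_smul_left, inner_sub_right, hy.2]
    exact inv_mul_cancel₀ (hgap i).ne'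
  have ν_lt : ∀ i : {i // x ∈ P.face i}, ∀ y ∈ P.body, y ∉ P.face i →
      inner ℝ (ν i) (y - v0) < (1 : ℝ) := by
    intro i y hy hyi
    show (inner ℝ ((P.b i - inner ℝ (P.n i) v0)⁻¹ • P.n i) (y - v0) : ℝ) < 1
    have h1 : (inner ℝ (P.n i) y : ℝ) < P.b i := lt_of_le_of_ne (hy i) fun h => hyi ⟨hy, h⟩
    rw [real_inner_smul_left, inner_sub_right, inv_mul_lt_iff₀ (hgap i), mul_one]
    linarith
  -- the orientation
  have hD : ∀ i, (inner ℝ (cr z (W i)) (p i - v0) : ℝ) < 0 := by
    intro i
    obtain ⟨h1, h2, h3, h4, h5, h6, h7, h8, h9, h10, h11⟩ := hs i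
    have e1 : (inner ℝ (cr z (W i)) (p i - v0) : ℝ) = inner ℝ z (cr (q i - x) (p i - x)) := by
      have e2 : W i = z + (q i - x) := by
        show q i - v0 = (x - v0) + (q i - x)
        abel
      have e3 : p i - v0 = z + (p i - x) := by rw [hz]; abel
      rw [e2, e3, inner3, inner3]
      simp only [cr0, cr1, cr2, PiLp.add_apply]
      ring
    have e4 : cr (q i - x) (p i - x) =
        (t i * (c - inner ℝ a x)) • P.n i := by
      have e5 : q i - x = t i • cr a (P.n i) + (p i - x) := by rw [← h6]; abel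
      rw [e5, cr_add_left, cr_self, add_zero, cr_smul_left, cr_cr, inner_sub_right,
        inner_sub_right, h3, h1.2, i.2.2, sub_self, zero_smul, sub_zero, smul_smul]
    rw [e1, e4, inner_smul_right, real_inner_comm (P.n i) z, hz, inner_sub_right, i.2.2]
    have := hgap i
    have := hL.lt
    have h12 : t i * (c - inner ℝ a x) < 0 := mul_neg_of_pos_of_neg h5 (by linarith)
    exact mul_neg_of_neg_of_pos h12 (hgap i)
  have hcrne : ∀ i, cr z (W i) ≠ 0 := by
    intro i h1
    have := hD i
    rw [h1, inner_zero_left] at this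
    exact lt_irrefl _ this
  have hC : ∀ i, ∃ C : ℝ, ν (σ i) - ν i = C • cr z (W i) := by
    intro i
    obtain ⟨h1, h2, h3, h4, h5, h6, h7, h8, h9, h10, h11⟩ := hs i
    have h12 : q i ∈ P.face (σ i) := by rw [← h7]; exact (hs (σ i)).1
    apply smul_cr _ _ (hcrne i)
    · rw [inner_sub_left, ν_one _ x (σ i).2, ν_one _ x i.2, sub_self]
    · rw [inner_sub_left, ν_one _ _ h12, ν_one _ _ h2, sub_self]
  choose C hC using hC
  have hCpos : ∀ i, 0 < C i := by
    intro i
    obtain ⟨h1, h2, h3, h4, h5, h6, h7, h8, h9, h10, h11⟩ := hs i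
    have e1 : (inner ℝ (ν (σ i) - ν i) (p i - v0) : ℝ) < 0 := by
      rw [inner_sub_left, ν_one i _ h1]
      have := ν_lt (σ i) (p i) h1.1 h9
      linarith
    rw [hC i, real_inner_smul_left] at e1
    have := hD i
    by_contra h; push Not at h; nlinarith
  -- the jumps of the angular velocities
  have hlam : ∀ i, ∃ lam : ℝ, w (σ i) - w i = lam • (q i - x) := by
    intro i
    obtain ⟨h1, h2, h3, h4, h5, h6, h7, h8, h9, h10, h11⟩ := hs i
    have h12 : q i ∈ P.face (σ i) := by rw [← h7]; exact (hs (σ i)).1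
    apply smul_of_cr_zero _ (sub_ne_zero.2 h10)
    have f1 := flex_edge hP h (σ i) i x ⟨(σ i).2, i.2⟩
    have f2 := flex_edge hP h (σ i) i (q i) ⟨h12, h2⟩
    have f3 : cr (w (σ i)) (q i) - cr (w (σ i)) x = cr (w i) (q i) - cr (w i) x := by
      have f4 : (cr (w (σ i)) (q i) + T (σ i)) - (cr (w (σ i)) x + T (σ i)) =
          (cr (w i) (q i) + T i) - (cr (w i) x + T i) := by rw [f1, f2]
      simpa using f4
    rw [cr_sub_left, cr_sub_right, cr_sub_right, f3, sub_self]
  choose lam hlam using hlam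
  set U := u x - u v0 with hU
  -- the radial velocity at `q i`
  set ρ : {i // x ∈ P.face i} → ℝ := fun i =>
    inner ℝ (cr (w i) (q i) + T i - u v0) (q i - v0) with hρ
  have hρ1 : ∀ i, ρ i = inner ℝ U (W i) - inner ℝ (w i) (cr z (W i)) := by
    intro i
    have e1 : cr (w i) (q i) + T i - u v0 = cr (w i) (W i - z) + U := by
      have e2 : W i - z = q i - x := by
        show q i - v0 - (x - v0) = q i - x
        abel
      rw [hU, hu, vel_eq h hxv i.2, e2, cr_sub_right]
      abel
    show (inner ℝ (cr (w i) (q i) + T i - u v0) (W i) : ℝ) = _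
    rw [e1, inner_add_left, cr_sub_right, inner_sub_left]
    have e3 : (inner ℝ (cr (w i) (W i)) (W i) : ℝ) = 0 := by
      rw [real_inner_comm]; exact inner_cr_right _ _
    have e4 : (inner ℝ (cr (w i) z) (W i) : ℝ) = inner ℝ (w i) (cr z (W i)) := by
      rw [inner3, inner3, cr0, cr1, cr2, cr0, cr1, cr2]; ring
    rw [e3, e4]
    ring
  -- closing up
  have hsum0 : ∑ i, (ν (σ i) - ν i) = 0 := by
    rw [Finset.sum_sub_distrib, Equiv.sum_comp σ ν, sub_self]
  have hK : ∃ K : ℝ, ∑ i, C i • W i = K • z := by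
    apply smul_of_cr_zero _ hz0
    have e1 : cr z (∑ i, C i • W i) = 0 := by
      rw [cr_sum_right, ← hsum0]
      refine Finset.sum_congr rfl fun i _ => ?_
      rw [cr_smul_right, hC i]
    rw [cr_anti, e1, neg_zero]
  obtain ⟨K, hK⟩ := hK
  have hwsum : ∑ i : {i // x ∈ P.face i}, (inner ℝ (w i) (ν (σ i) - ν i) : ℝ) = 0 := by
    have e1 : ∑ i : {i // x ∈ P.face i}, (inner ℝ (w i) (ν (σ i) - ν i) : ℝ) =
        ∑ i : {i // x ∈ P.face i}, (inner ℝ (w i) (ν (σ i)) : ℝ) -
          ∑ i : {i // x ∈ P.face i}, (inner ℝ (w i) (ν i) : ℝ) := by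
      rw [← Finset.sum_sub_distrib]
      exact Finset.sum_congr rfl fun i _ => inner_sub_right _ _ _
    rw [e1, ← Equiv.sum_comp σ fun i : {i // x ∈ P.face i} => (inner ℝ (w i) (ν i) : ℝ),
      ← Finset.sum_sub_distrib]
    refine Finset.sum_eq_zero fun i _ => ?_
    obtain ⟨h1, h2, h3, h4, h5, h6, h7, h8, h9, h10, h11⟩ := hs i
    have h12 : q i ∈ P.face (σ i) := by rw [← h7]; exact (hs (σ i)).1
    rw [← inner_sub_left]
    have e2 : w i - w (σ i) = -(lam i • (q i - x)) := by rw [← hlam i]; abel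
    rw [e2, inner_neg_left, real_inner_smul_left]
    have e3 : (inner ℝ (q i - x) (ν (σ i)) : ℝ) = 0 := by
      have e4 : q i - x = (q i - v0) - (x - v0) := by abel
      rw [real_inner_comm, e4, inner_sub_right, ν_one _ _ h12, ν_one _ _ (σ i).2, sub_self]
    rw [e3, mul_zero, neg_zero]
  have hsum : ∑ i, C i * (ρ i - M * l (q i)) = 0 := by
    have e1 : ∀ i, C i * (ρ i - M * l (q i)) =
        inner ℝ U (C i • W i) - inner ℝ (w i) (ν (σ i) - ν i) - M * inner ℝ b (C i • W i) := by
      intro i
      rw [hρ1 i, hC i, inner_smul_right, inner_smul_right, inner_smul_right]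
      show C i * (_ - M * inner ℝ b (q i - v0)) = _ - M * (C i * inner ℝ b (q i - v0))
      ring
    rw [Finset.sum_congr rfl fun i _ => e1 i, Finset.sum_sub_distrib, Finset.sum_sub_distrib,
      ← inner_sum, ← Finset.mul_sum, ← inner_sum, hwsum, hK, inner_smul_right, inner_smul_right]
    have e2 : (inner ℝ U z : ℝ) - M * inner ℝ b z = 0 := hx.2
    linear_combination K * e2
  -- the values at `q i` are nonpositive
  have hqle : ∀ i, ρ i - M * l (q i) ≤ 0 := by
    intro i
    obtain ⟨h1, h2, h3, h4, h5, h6, h7, h8, h9, h10, h11⟩ := hs i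
    set τ := cr (w i) v0 + T i - u v0 with hτ
    have key : ∀ y, (inner ℝ (cr (w i) y + T i - u v0) (y - v0) : ℝ) - M * l y =
        inner ℝ (τ - M • b) (y - v0) := by
      intro y
      have e1 : cr (w i) y + T i - u v0 = cr (w i) (y - v0) + τ := by
        rw [hτ, cr_sub_right]; abel
      have e3 : (inner ℝ (cr (w i) (y - v0)) (y - v0) : ℝ) = 0 := by
        rw [real_inner_comm]; exact inner_cr_right _ _
      rw [e1, inner_add_left, e3, zero_add, inner_sub_left τ (M • b) (y - v0),
        real_inner_smul_left]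
    have hconv : Convex ℝ {y : E3 | (inner ℝ (τ - M • b) (y - v0) : ℝ) ≤ 0} := by
      intro y hy y' hy' s t hs ht hst
      show (inner ℝ (τ - M • b) (s • y + t • y' - v0) : ℝ) ≤ 0
      have e1 : s • y + t • y' - v0 = s • (y - v0) + t • (y' - v0) := by
        have : v0 = s • v0 + t • v0 := by rw [← add_smul, hst, one_smul]
        nth_rewrite 1 [this]
        module
      rw [e1, inner_add_right, inner_smul_right, inner_smul_right]
      have k1 := mul_nonpos_of_nonneg_of_nonpos hs
        (show (inner ℝ (τ - M • b) (y - v0) : ℝ) ≤ 0 from hy)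
      have k2 := mul_nonpos_of_nonneg_of_nonpos ht
        (show (inner ℝ (τ - M • b) (y' - v0) : ℝ) ≤ 0 from hy')
      linarith
    have hclo : IsClosed {y : E3 | (inner ℝ (τ - M • b) (y - v0) : ℝ) ≤ 0} :=
      isClosed_le (by fun_prop) continuous_const
    have h13 := face_hull hP i hconv hclo (fun y hy hyi => by
      show (inner ℝ (τ - M • b) (y - v0) : ℝ) ≤ 0
      rw [← key y, ← vel_eq h hy hyi]
      exact hle y ⟨hy, fun h14 => hsep i i.2 (by rw [← (h14 : y = v0)]; exact hyi)⟩) h2
    have h14 : (inner ℝ (τ - M • b) (q i - v0) : ℝ) ≤ 0 := h13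
    rw [← key (q i)] at h14
    exact h14
  have hqeq : ∀ i, ρ i - M * l (q i) = 0 := by
    intro i
    have h1 := (Finset.sum_eq_zero_iff_of_nonpos (fun i _ =>
      mul_nonpos_of_nonneg_of_nonpos (hCpos i).le (hqle i))).1 hsum i (Finset.mem_univ i)
    exact (mul_eq_zero.1 h1).resolve_left (hCpos i).ne'
  -- an edge going down
  have hv0c : (inner ℝ a v0 : ℝ) < c := by
    obtain ⟨k, hk⟩ := vertex_face hP hv0
    exact hL.far k (fun h1 => hsep k h1 hk) v0 hk
  obtain ⟨i, hi⟩ := exists_lower hP hL hxv hs (b := b) hv0.1 hv0c (by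
    have := hlx
    rw [hl] at this
    simp only [inner_sub_right] at this
    linarith)
  obtain ⟨h1, h2, h3, h4, h5, h6, h7, h8, h9, h10, h11⟩ := hs i
  have h12 : q i ∈ P.face (σ i) := by rw [← h7]; exact (hs (σ i)).1
  have hH : Convex ℝ {y : E3 | (inner ℝ b x : ℝ) ≤ inner ℝ b y} := by
    intro y hy y' hy' s t hs ht hst
    show (inner ℝ b x : ℝ) ≤ inner ℝ b (s • y + t • y')
    rw [inner_add_right, inner_smul_right, inner_smul_right]
    have k1 := mul_le_mul_of_nonneg_left (show (inner ℝ b x : ℝ) ≤ inner ℝ b y from hy) hs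
    have k2 := mul_le_mul_of_nonneg_left (show (inner ℝ b x : ℝ) ≤ inner ℝ b y' from hy') ht
    calc (inner ℝ b x : ℝ) = s * inner ℝ b x + t * inner ℝ b x := by
          rw [← add_mul, hst, one_mul]
      _ ≤ _ := add_le_add k1 k2
  have hHc : IsClosed {y : E3 | (inner ℝ b x : ℝ) ≤ inner ℝ b y} :=
    isClosed_le continuous_const (by fun_prop)
  have hfin := inter_hull hP i (σ i) hH hHc (fun y hy hyi hyj => by
    show (inner ℝ b x : ℝ) ≤ inner ℝ b y
    have hyv : y ≠ v0 := fun h14 => hsep i i.2 (by rw [← h14]; exact hyi)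
    obtain ⟨s, hs'⟩ := edge_line hP h8 i.2 (σ i).2 h2 h12 hyi hyj h10
    -- the function is affine along the edge
    have hφ : r y - M * l y = 0 := by
      set τ := cr (w i) v0 + T i - u v0 with hτ
      have key : ∀ y, (inner ℝ (cr (w i) y + T i - u v0) (y - v0) : ℝ) - M * l y =
          inner ℝ (τ - M • b) (y - v0) := by
        intro y
        have e1 : cr (w i) y + T i - u v0 = cr (w i) (y - v0) + τ := by
          rw [hτ, cr_sub_right]; abel
        have e3 : (inner ℝ (cr (w i) (y - v0)) (y - v0) : ℝ) = 0 := by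
          rw [real_inner_comm]; exact inner_cr_right _ _
        rw [e1, inner_add_left, e3, zero_add, inner_sub_left τ (M • b) (y - v0),
          real_inner_smul_left]
      have k1 : (inner ℝ (τ - M • b) (x - v0) : ℝ) = 0 := by
        rw [← key x, ← vel_eq h hxv i.2]; exact hx.2
      have k2 : (inner ℝ (τ - M • b) (q i - v0) : ℝ) = 0 := by
        rw [← key (q i)]; exact hqeq i
      have k3 : r y - M * l y = inner ℝ (τ - M • b) (y - v0) := by
        rw [← key y, ← vel_eq h hy hyi]
      rw [k3]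
      have k4 : y - v0 = (1 - s) • (x - v0) + s • (q i - v0) := by
        have : y = x + s • (q i - x) := by rw [← hs']; abel
        rw [this]; module
      rw [k4, inner_add_right, inner_smul_right, inner_smul_right, k1, k2]
      ring
    have h15 := hmin y ⟨⟨hy, hyv⟩, hφ⟩
    have h16 : l x ≤ l y := h15
    rw [hl] at h16
    simp only [inner_sub_right] at h16
    linarith) ⟨h2, h12⟩
  have h17 : (inner ℝ b x : ℝ) ≤ inner ℝ b (q i) := hfin
  linarith

/-- the distances between the vertices do not change -/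
theorem radial_zero (hP : IsPolyhedron P) {w T : ι → E3} (h : Flex P w T) {v x : E3}
    (hv : v ∈ P.body.extremePoints ℝ) (hx : x ∈ P.body.extremePoints ℝ) {i j : ι}
    (hi : x ∈ P.face i) (hj : v ∈ P.face j) :
    (inner ℝ (cr (w i) x + T i - (cr (w j) v + T j)) (x - v) : ℝ) = 0 := by
  have h1 := radial_nonpos hP h hv x hx
  have h2 := radial_nonpos hP (flex_neg h) hv x hx
  rw [vel_eq h hx hi, vel_eq h hv hj] at h1
  rw [vel_eq (flex_neg h) hx hi, vel_eq (flex_neg h) hv hj] at h2
  refine le_antisymm h1 ?_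
  have h3 : cr (-w i) x + -T i - (cr (-w j) v + -T j) =
      -(cr (w i) x + T i - (cr (w j) v + T j)) := by
    rw [cr_neg_left, cr_neg_left]; abel
  have h4 : (inner ℝ (cr (-w i) x + -T i - (cr (-w j) v + -T j)) (x - v) : ℝ) ≤ 0 := h2
  rw [h3, inner_neg_left] at h4
  linarith

/-- a velocity field which vanishes on one face vanishes -/
theorem flex_zero (hP : IsPolyhedron P) {w T : ι → E3} (h : Flex P w T) {k : ι} (hw : w k = 0)
    (hT : T k = 0) (i : ι) : w i = 0 ∧ T i = 0 := by
  obtain ⟨v, hv, hvk⟩ := face_vertex hP k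
  have hvert : ∀ x ∈ P.body.extremePoints ℝ, x ∈ P.face i → cr (w i) x + T i = 0 := by
    intro x hx hxi
    by_cases hxk : x ∈ P.face k
    · rw [h i k x hx hxi hxk, hw, hT, cr_zero_left, add_zero]
    set u := cr (w i) x + T i with hu
    have hconv : Convex ℝ {y : E3 | (inner ℝ u (x - y) : ℝ) = 0} := by
      intro y hy y' hy' s t hs ht hst
      show (inner ℝ u (x - (s • y + t • y')) : ℝ) = 0
      have e1 : x - (s • y + t • y') = s • (x - y) + t • (x - y') := by
        have : x = s • x + t • x := by rw [← add_smul, hst, one_smul]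
        nth_rewrite 1 [this]
        module
      rw [e1, inner_add_right, inner_smul_right, inner_smul_right,
        show (inner ℝ u (x - y) : ℝ) = 0 from hy, show (inner ℝ u (x - y') : ℝ) = 0 from hy']
      ring
    have hcl : IsClosed {y : E3 | (inner ℝ u (x - y) : ℝ) = 0} :=
      isClosed_eq (by fun_prop) continuous_const
    have hall := face_hull hP k hconv hcl (fun y hy hyk => by
      have h1 := radial_zero hP h hy hx hxi hyk
      rw [hw, hT, cr_zero_left, add_zero, sub_zero] at h1
      exact h1)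
    obtain ⟨p, hp, q, hq, hpq⟩ := face_frame hP hvk
    have e1 : (inner ℝ u (x - v) : ℝ) = 0 := hall hvk
    have e2 : (inner ℝ u (x - p) : ℝ) = 0 := hall hp
    have e3 : (inner ℝ u (x - q) : ℝ) = 0 := hall hq
    obtain ⟨t, ht⟩ := smul_cr (x := u) (z := p - v) (w := q - v)
      (by
        have : p - v = (x - v) - (x - p) := by abel
        rw [this, inner_sub_right, e1, e2, sub_self])
      (by
        have : q - v = (x - v) - (x - q) := by abel
        rw [this, inner_sub_right, e1, e3, sub_self]) hpq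
    obtain ⟨s, hs⟩ := smul_cr (x := P.n k) (z := p - v) (w := q - v)
      (by rw [inner_sub_right, hp.2, hvk.2, sub_self])
      (by rw [inner_sub_right, hq.2, hvk.2, sub_self]) hpq
    have hs0 : s ≠ 0 := by
      rintro rfl
      exact n_ne_zero hP hvk (by rw [hs, zero_smul])
    have e4 : (inner ℝ (P.n k) (x - v) : ℝ) ≠ 0 := by
      rw [inner_sub_right, hvk.2]
      intro h1
      exact hxk ⟨hx.1, by linarith⟩
    have e5 : (inner ℝ (cr (p - v) (q - v)) (x - v) : ℝ) ≠ 0 := by
      intro h1
      apply e4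
      rw [hs, real_inner_smul_left, h1, mul_zero]
    have e6 : t = 0 := by
      rw [ht, real_inner_smul_left] at e1
      exact (mul_eq_zero.1 e1).resolve_right e5
    rw [ht, e6, zero_smul]
  have hconv : Convex ℝ {x : E3 | cr (w i) x + T i = 0} := by
    intro x hx y hy s t _ _ hst
    have hx' : cr (w i) x + T i = 0 := hx
    have hy' : cr (w i) y + T i = 0 := hy
    show cr (w i) (s • x + t • y) + T i = 0
    rw [cr_add_right, cr_smul_right, cr_smul_right]
    have e1 : T i = s • T i + t • T i := by rw [← add_smul, hst, one_smul]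
    calc s • cr (w i) x + t • cr (w i) y + T i
        = s • (cr (w i) x + T i) + t • (cr (w i) y + T i) := by
          nth_rewrite 1 [e1]; module
      _ = 0 := by rw [hx', hy', smul_zero, smul_zero, add_zero]
  have hcl : IsClosed {x : E3 | cr (w i) x + T i = 0} :=
    isClosed_eq ((continuous_cr continuous_const continuous_id).add continuous_const)
      continuous_const
  have hall := face_hull hP i hconv hcl hvert
  obtain ⟨v', hv', hvi⟩ := face_vertex hP i
  obtain ⟨p, hp, q, hq, hpq⟩ := face_frame hP hvi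
  have e1 : cr (w i) v' + T i = 0 := hall hvi
  have e2 : cr (w i) p + T i = 0 := hall hp
  have e3 : cr (w i) q + T i = 0 := hall hq
  have f1 : cr (w i) (p - v') = 0 := by
    have : cr (w i) (p - v') = (cr (w i) p + T i) - (cr (w i) v' + T i) := by
      rw [cr_sub_right]; abel
    rw [this, e1, e2, sub_self]
  have f2 : cr (w i) (q - v') = 0 := by
    have : cr (w i) (q - v') = (cr (w i) q + T i) - (cr (w i) v' + T i) := by
      rw [cr_sub_right]; abel
    rw [this, e1, e3, sub_self]
  have hp0 : p - v' ≠ 0 := by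
    intro h1
    rw [h1, cr_zero_left] at hpq
    exact hpq rfl
  obtain ⟨s, hs⟩ := smul_of_cr_zero f1 hp0
  have hs0 : s = 0 := by
    rw [hs, cr_smul_left] at f2
    exact (smul_eq_zero.1 f2).resolve_right hpq
  have hwi : w i = 0 := by rw [hs, hs0, zero_smul]
  refine ⟨hwi, ?_⟩
  rw [hwi, cr_zero_left, zero_add] at e1
  exact e1

end Pool.Agent.W5h43.PP
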