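import Pool.Agent.W5h43.PP.Stab

/-! Convex polyhedra with rigid faces and all hinges are rigid. -/

set_option autoImplicit false

namespace Pool.Agent.W5h43.PP

open Pool.Agent.R118.PM Filter Topology

theorem cramer (a b c : E3) : (inner ℝ (cr a b) (cr a b) : ℝ) • c =
    (inner ℝ (cr c b) (cr a b) : ℝ) • a + (inner ℝ (cr a c) (cr a b) : ℝ) • b +
      (inner ℝ (cr a b) c : ℝ) • cr a b := by
  apply ext3 <;> simp only [PiLp.add_apply, PiLp.smul_apply, smul_eq_mul, inner3, cr0, cr1, cr2] <;>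
    ring

variable {ι : Type} [Fintype ι] {P : R118.PM.Poly ι}

omit [Fintype ι] in
theorem face_span (hP : IsPolyhedron P) {i : ι} {v p q y : E3} (hv : v ∈ P.face i)
    (hp : p ∈ P.face i) (hq : q ∈ P.face i) (hpq : cr (p - v) (q - v) ≠ 0) (hy : y ∈ P.face i) :
    ∃ s t : ℝ, y = v + s • (p - v) + t • (q - v) := by
  have hn0 : P.n i ≠ 0 := by
    intro h
    obtain ⟨x, hx⟩ := hP.interior
    have h1 := hx i
    have h2 := hv.2
    rw [h, inner_zero_left] at h1 h2
    linarith
  set N := cr (p - v) (q - v) with hN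
  obtain ⟨s, hs⟩ := smul_cr (x := P.n i) (z := p - v) (w := q - v)
    (by rw [inner_sub_right, hp.2, hv.2, sub_self])
    (by rw [inner_sub_right, hq.2, hv.2, sub_self]) hpq
  have hs0 : s ≠ 0 := by
    rintro rfl
    exact hn0 (by rw [hs, zero_smul])
  have hNy : (inner ℝ N (y - v) : ℝ) = 0 := by
    have h1 : (inner ℝ (P.n i) (y - v) : ℝ) = 0 := by rw [inner_sub_right, hy.2, hv.2, sub_self]
    rw [hs, real_inner_smul_left] at h1
    exact (mul_eq_zero.1 h1).resolve_left hs0
  have hNN := (inner_self_pos hpq).ne'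
  have h1 := cramer (p - v) (q - v) (y - v)
  rw [← hN, hNy, zero_smul, add_zero] at h1
  refine ⟨(inner ℝ N N : ℝ)⁻¹ * inner ℝ (cr (y - v) (q - v)) N,
    (inner ℝ N N : ℝ)⁻¹ * inner ℝ (cr (p - v) (y - v)) N, ?_⟩
  have h2 : y - v = (inner ℝ N N : ℝ)⁻¹ • ((inner ℝ (cr (y - v) (q - v)) N : ℝ) • (p - v) +
      (inner ℝ (cr (p - v) (y - v)) N : ℝ) • (q - v)) := by
    rw [← h1, smul_smul, inv_mul_cancel₀ hNN, one_smul]
  rw [smul_add, smul_smul, smul_smul] at h2
  rw [add_assoc, ← h2]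
  abel

/-- **Rigidity of convex polyhedra** (Cauchy's theorem, for continuous motions). -/
theorem rigid (hP : IsPolyhedron P) : Rigid P ∅ := by
  classical
  intro g hg t1 ht1
  rcases isEmpty_or_nonempty ι with hι | hι
  · exact ⟨IsometryEquiv.refl E3, fun i => (hι.false i).elim⟩
  have hM : IsMatching P ∅ := ⟨fun e he => absurd he (Set.notMem_empty _),
    fun e he => absurd he (Set.notMem_empty _)⟩
  have hvx : ∀ t ∈ Set.Icc (0 : ℝ) 1, ∀ x ∈ P.body.extremePoints ℝ, ∀ i j, x ∈ P.face i →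
      x ∈ P.face j → g i t x = g j t x :=
    fun t ht x hx i j hi hj => at_vertex hP hM hg ht hx hi hj
  set S : Set ℝ := {t | ∀ i j, ∀ x ∈ P.body.extremePoints ℝ, ∀ y ∈ P.body.extremePoints ℝ,
    x ∈ P.face i → y ∈ P.face j → dist (g i t x) (g j t y) = dist x y} with hS
  have hcl : IsClosed (S ∩ Set.Icc 0 1) := by
    have e1 : S ∩ Set.Icc 0 1 = Set.Icc 0 1 ∩ ⋂ i, ⋂ j, ⋂ x : Vx P, ⋂ y : Vx P,
        ⋂ (_ : (x : E3) ∈ P.face i), ⋂ (_ : (y : E3) ∈ P.face j),
          (Set.Icc 0 1 ∩ (fun t => dist (g i t x) (g j t y)) ⁻¹' {dist (x : E3) y}) := by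
      ext t
      simp only [Set.mem_inter_iff, Set.mem_iInter, Set.mem_preimage, Set.mem_singleton_iff]
      constructor
      · rintro ⟨h1, h2⟩
        exact ⟨h2, fun i j x y hx hy => ⟨h2, h1 i j x x.2 y y.2 hx hy⟩⟩
      · rintro ⟨h2, h1⟩
        exact ⟨fun i j x hx y hy hxi hyj => (h1 i j ⟨x, hx⟩ ⟨y, hy⟩ hxi hyj).2, h2⟩
    rw [e1]
    refine isClosed_Icc.inter ?_
    refine isClosed_iInter fun i => isClosed_iInter fun j => isClosed_iInter fun x =>
      isClosed_iInter fun y => isClosed_iInter fun _ => isClosed_iInter fun _ => ?_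
    exact ContinuousOn.preimage_isClosed_of_isClosed
      (continuous_dist.comp_continuousOn (ContinuousOn.prodMk (hg.cont i x) (hg.cont j y)))
      isClosed_Icc isClosed_singleton
  have h0S : (0 : ℝ) ∈ S := by
    intro i j x _ y _ _ _
    rw [hg.start, hg.start]
  have hopen : ∀ t0 ∈ S ∩ Set.Ico 0 1, S ∈ 𝓝[>] t0 := by
    rintro t0 ⟨ht0S, ht0⟩
    have ht0' : t0 ∈ Set.Icc (0 : ℝ) 1 := ⟨ht0.1, ht0.2.le⟩
    obtain ⟨h0, hh0⟩ := exists_isometry hP (fun i => g i t0)
      (fun i j x hx y hy hxi hyj => ht0S i j x hx y hy hxi hyj)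
    have hle : 𝓝[>] t0 ≤ 𝓝[Set.Icc 0 1] t0 := by
      rw [← nhdsWithin_Ioc_eq_nhdsGT ht0.2]
      exact nhdsWithin_mono _ fun s hs => ⟨ht0.1.trans hs.1.le, hs.2⟩
    apply hle
    have htend : ∀ i, ∀ y ∈ P.face i,
        Tendsto (fun t => h0.symm (g i t y)) (𝓝[Set.Icc 0 1] t0) (𝓝 y) := by
      intro i y hy
      have h1 : Tendsto (fun t => g i t y) (𝓝[Set.Icc 0 1] t0) (𝓝 (g i t0 y)) :=
        hg.cont i y t0 ht0'
      have h2 := (h0.symm.continuous.tendsto (g i t0 y)).comp h1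
      have h3 : h0.symm (g i t0 y) = y := by
        rw [hh0 i y hy, h0.symm_apply_apply]
      rw [h3] at h2
      exact h2
    have hmid : ∀ i, ∀ y ∈ P.face i, Tendsto (fun t => (1 / 2 : ℝ) • (y + h0.symm (g i t y)))
        (𝓝[Set.Icc 0 1] t0) (𝓝 y) := by
      intro i y hy
      have h1 := ((htend i y hy).const_add y).const_smul (1 / 2 : ℝ)
      have h2 : (1 / 2 : ℝ) • (y + y) = y := by module
      rw [h2] at h1
      exact h1
    choose fc hfc using fun x : Vx P => vertex_face hP x.2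
    have E1 := (tendsto_pi_nhds.2 fun x : Vx P => hmid (fc x) x (hfc x)).eventually (stable hP)
    have hframe : ∀ i, ∃ v p q : E3, v ∈ P.face i ∧ p ∈ P.face i ∧ q ∈ P.face i ∧
        cr (p - v) (q - v) ≠ 0 := by
      intro i
      obtain ⟨v, -, hv⟩ := face_vertex hP i
      obtain ⟨p, hp, q, hq, h⟩ := face_frame hP hv
      exact ⟨v, p, q, hv, hp, hq, h⟩
    choose v p q hv hp hq hpq using hframe
    have hcrc : Continuous fun z : E3 × E3 => cr z.1 z.2 :=
      continuous_cr continuous_fst continuous_snd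
    have E2 : ∀ᶠ t in 𝓝[Set.Icc 0 1] t0, ∀ i,
        cr ((1 / 2 : ℝ) • (p i + h0.symm (g i t (p i))) -
            (1 / 2 : ℝ) • (v i + h0.symm (g i t (v i))))
          ((1 / 2 : ℝ) • (q i + h0.symm (g i t (q i))) -
            (1 / 2 : ℝ) • (v i + h0.symm (g i t (v i)))) ≠ 0 := by
      rw [Filter.eventually_all]
      intro i
      have h1 := (hmid i (p i) (hp i)).sub (hmid i (v i) (hv i))
      have h2 := (hmid i (q i) (hq i)).sub (hmid i (v i) (hv i))
      have h3 := (hcrc.tendsto (p i - v i, q i - v i)).comp (h1.prodMk_nhds h2)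
      exact h3.eventually_ne (hpq i)
    filter_upwards [E1, E2, self_mem_nhdsWithin] with t h1 h2 ht
    have hscrew := fun i => exists_screw ((g i t).trans h0.symm) (v i) (p i) (q i) (h2 i)
    choose w T hwT using hscrew
    have hall : ∀ i, ∀ y ∈ P.face i, h0.symm (g i t y) - y =
        cr (w i) ((1 / 2 : ℝ) • (y + h0.symm (g i t y))) + T i := by
      intro i y hy
      obtain ⟨a, b, hab⟩ := face_span hP (hv i) (hp i) (hq i) (hpq i) hy
      exact hwT i a b y hab
    have hPF : PFlex P (fun x : Vx P => (1 / 2 : ℝ) • ((x : E3) + h0.symm (g (fc x) t x))) w T := by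
      intro i j x hi hj
      show cr (w i) ((1 / 2 : ℝ) • ((x : E3) + h0.symm (g (fc x) t x))) + T i =
        cr (w j) ((1 / 2 : ℝ) • ((x : E3) + h0.symm (g (fc x) t x))) + T j
      have e1 := hall i x hi
      have e2 := hall j x hj
      have e3 := hvx t ht x x.2 (fc x) i (hfc x) hi
      have e4 := hvx t ht x x.2 (fc x) j (hfc x) hj
      rw [← e3] at e1
      rw [← e4] at e2
      rw [← e1, ← e2]
    have heq := h1 w T hPF
    intro i j x hx y hy hxi hyj
    have e1 := hall i x hxi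
    have e2 := hall j y hyj
    rw [(heq j i).1, (heq j i).2] at e2
    set x' := h0.symm (g i t x) with hx'
    set y' := h0.symm (g j t y) with hy'
    have e3 : (x' - y') - (x - y) = cr (w i) ((1 / 2 : ℝ) • ((x' - y') + (x - y))) := by
      have e4 : (1 / 2 : ℝ) • ((x' - y') + (x - y)) =
          (1 / 2 : ℝ) • (x + x') - (1 / 2 : ℝ) • (y + y') := by module
      rw [e4, cr_sub_right]
      have e5 : (x' - y') - (x - y) = (x' - x) - (y' - y) := by abel
      rw [e5, e1, e2]
      abel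
    have e6 : (inner ℝ ((x' - y') - (x - y)) ((x' - y') + (x - y)) : ℝ) = 0 := by
      rw [e3, cr_smul_right, real_inner_smul_left, real_inner_comm, inner_cr_right, mul_zero]
    have e7 : ‖x' - y'‖ = ‖x - y‖ := by
      have e8 : (inner ℝ ((x' - y') + (x - y)) ((x' - y') - (x - y)) : ℝ) = 0 := by
        rw [real_inner_comm]; exact e6
      exact (real_inner_add_sub_eq_zero_iff _ _).1 e8
    have e9 : dist x' y' = dist x y := by rw [dist_eq_norm, dist_eq_norm, e7]
    rw [hx', hy', h0.symm.dist_eq] at e9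
    exact e9
  have hall := hcl.Icc_subset_of_forall_mem_nhdsWithin h0S hopen
  exact exists_isometry hP (fun i => g i t1)
    (fun i j x hx y hy hxi hyj => hall ht1 i j x hx y hy hxi hyj)

end Pool.Agent.W5h43.PP
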