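import Pool.Agent.W5h43.PP.Ext

/-! Infinitesimal rigidity persists under small changes of the vertices. -/

set_option autoImplicit false

namespace Pool.Agent.W5h43.PP

open Pool.Agent.R118.PM Filter Topology

variable {ι : Type} [Fintype ι] {P : R118.PM.Poly ι}

/-- the vertices -/
abbrev Vx (P : R118.PM.Poly ι) : Type := ↥(P.body.extremePoints ℝ)

noncomputable instance instFinVx (P : R118.PM.Poly ι) : Fintype (Vx P) :=
  (vertices_finite P).fintype

/-- velocities of the panels which agree at the displaced common vertices -/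
def PFlex (P : R118.PM.Poly ι) (m : Vx P → E3) (w T : ι → E3) : Prop :=
  ∀ i j, ∀ x : Vx P, (x : E3) ∈ P.face i → (x : E3) ∈ P.face j →
    cr (w i) (m x) + T i = cr (w j) (m x) + T j

open scoped Classical in
/-- the total failure -/
noncomputable def Phi (P : R118.PM.Poly ι) (k : ι)
    (y : (Vx P → E3) × ((ι → E3) × (ι → E3))) : ℝ :=
  ‖y.2.1 k‖ + ‖y.2.2 k‖ + ∑ x : Vx P, ∑ i, ∑ j,
    if (x : E3) ∈ P.face i ∧ (x : E3) ∈ P.face j then
      ‖cr (y.2.1 i) (y.1 x) + y.2.2 i - (cr (y.2.1 j) (y.1 x) + y.2.2 j)‖ else 0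

theorem Phi_continuous (k : ι) : Continuous (Phi P k) := by
  classical
  unfold Phi
  refine Continuous.add (by fun_prop) ?_
  refine continuous_finsetSum _ fun x _ => continuous_finsetSum _ fun i _ =>
    continuous_finsetSum _ fun j _ => ?_
  split_ifs
  · refine Continuous.norm (Continuous.sub (Continuous.add (continuous_cr ?_ ?_) ?_)
      (Continuous.add (continuous_cr ?_ ?_) ?_)) <;> fun_prop
  · exact continuous_const

theorem Phi_nonneg (k : ι) (y : (Vx P → E3) × ((ι → E3) × (ι → E3))) : 0 ≤ Phi P k y := by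
  classical
  unfold Phi
  refine add_nonneg (add_nonneg (norm_nonneg _) (norm_nonneg _)) ?_
  refine Finset.sum_nonneg fun x _ => Finset.sum_nonneg fun i _ => Finset.sum_nonneg fun j _ => ?_
  split_ifs
  · exact norm_nonneg _
  · exact le_rfl

theorem Phi_zero (k : ι) {m : Vx P → E3} {w T : ι → E3} :
    Phi P k (m, (w, T)) = 0 ↔ PFlex P m w T ∧ w k = 0 ∧ T k = 0 := by
  classical
  have hterm : ∀ (x : Vx P) (i j : ι), (0 : ℝ) ≤
      if (x : E3) ∈ P.face i ∧ (x : E3) ∈ P.face j then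
        ‖cr (w i) (m x) + T i - (cr (w j) (m x) + T j)‖ else 0 := by
    intro x i j
    split_ifs
    · exact norm_nonneg _
    · exact le_rfl
  constructor
  · intro h
    have h1 : ‖w k‖ + ‖T k‖ + ∑ x : Vx P, ∑ i, ∑ j,
        (if (x : E3) ∈ P.face i ∧ (x : E3) ∈ P.face j then
          ‖cr (w i) (m x) + T i - (cr (w j) (m x) + T j)‖ else 0) = 0 := h
    have hs := Finset.sum_nonneg fun (x : Vx P) (_ : x ∈ Finset.univ) =>
      Finset.sum_nonneg fun i (_ : i ∈ Finset.univ) =>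
        Finset.sum_nonneg fun j (_ : j ∈ Finset.univ) => hterm x i j
    have n1 := norm_nonneg (w k)
    have n2 := norm_nonneg (T k)
    have hs0 : ∑ x : Vx P, ∑ i, ∑ j,
        (if (x : E3) ∈ P.face i ∧ (x : E3) ∈ P.face j then
          ‖cr (w i) (m x) + T i - (cr (w j) (m x) + T j)‖ else 0) = 0 := by linarith
    refine ⟨?_, norm_eq_zero.1 (by linarith), norm_eq_zero.1 (by linarith)⟩
    intro i j x hi hj
    have h2 := (Finset.sum_eq_zero_iff_of_nonneg (fun (x : Vx P) _ =>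
      Finset.sum_nonneg fun i (_ : i ∈ Finset.univ) =>
        Finset.sum_nonneg fun j (_ : j ∈ Finset.univ) => hterm x i j)).1 hs0 x (Finset.mem_univ x)
    have h3 := (Finset.sum_eq_zero_iff_of_nonneg (fun i _ =>
        Finset.sum_nonneg fun j (_ : j ∈ Finset.univ) => hterm x i j)).1 h2 i (Finset.mem_univ i)
    have h4 := (Finset.sum_eq_zero_iff_of_nonneg (fun j _ => hterm x i j)).1 h3 j
      (Finset.mem_univ j)
    rw [if_pos ⟨hi, hj⟩, norm_eq_zero, sub_eq_zero] at h4
    exact h4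
  · rintro ⟨h, hw, hT⟩
    show ‖w k‖ + ‖T k‖ + ∑ x : Vx P, ∑ i, ∑ j,
        (if (x : E3) ∈ P.face i ∧ (x : E3) ∈ P.face j then
          ‖cr (w i) (m x) + T i - (cr (w j) (m x) + T j)‖ else 0) = 0
    rw [hw, hT, norm_zero, zero_add, zero_add]
    refine Finset.sum_eq_zero fun x _ => Finset.sum_eq_zero fun i _ =>
      Finset.sum_eq_zero fun j _ => ?_
    split_ifs with hij
    · rw [h i j x hij.1 hij.2, sub_self, norm_zero]
    · rfl

theorem stable (hP : IsPolyhedron P) :
    ∀ᶠ m in 𝓝 (fun x : Vx P => (x : E3)), ∀ w T : ι → E3, PFlex P m w T →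
      ∀ i j, w i = w j ∧ T i = T j := by
  classical
  rcases isEmpty_or_nonempty ι with hι | ⟨⟨k⟩⟩
  · exact Filter.Eventually.of_forall fun m w T _ i => (hι.false i).elim
  set S : Set ((ι → E3) × (ι → E3)) := Metric.sphere 0 1 with hS
  have hScpt : IsCompact S := isCompact_sphere _ _
  have hopen : IsOpen {y : (Vx P → E3) × ((ι → E3) × (ι → E3)) | 0 < Phi P k y} :=
    isOpen_lt continuous_const (Phi_continuous k)
  have hsub : ({fun x : Vx P => (x : E3)} : Set (Vx P → E3)) ×ˢ S ⊆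
      {y : (Vx P → E3) × ((ι → E3) × (ι → E3)) | 0 < Phi P k y} := by
    rintro ⟨m, w, T⟩ ⟨hm, hwT⟩
    have hm' : m = fun x : Vx P => (x : E3) := hm
    subst hm'
    refine lt_of_le_of_ne (Phi_nonneg k _) fun h0 => ?_
    obtain ⟨h1, h2, h3⟩ := (Phi_zero k).1 h0.symm
    have h4 : Flex P w T := fun i j x hx hi hj => h1 i j ⟨x, hx⟩ hi hj
    have h5 := fun i => flex_zero hP h4 h2 h3 i
    have h6 : ((w, T) : (ι → E3) × (ι → E3)) = 0 :=
      Prod.ext (funext fun i => (h5 i).1) (funext fun i => (h5 i).2)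
    have h7 : ‖((w, T) : (ι → E3) × (ι → E3))‖ = 1 := mem_sphere_zero_iff_norm.1 hwT
    rw [h6, norm_zero] at h7
    exact zero_ne_one h7
  obtain ⟨u, v, hu, -, hmu, hSv, huv⟩ :=
    generalized_tube_lemma isCompact_singleton hScpt hopen hsub
  filter_upwards [hu.mem_nhds (hmu rfl)] with m hm w T hPF i j
  set y : (ι → E3) × (ι → E3) := (fun i => w i - w k, fun i => T i - T k) with hy
  have hPF' : PFlex P m (fun i => w i - w k) (fun i => T i - T k) := by
    intro i j x hi hj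
    show cr (w i - w k) (m x) + (T i - T k) = cr (w j - w k) (m x) + (T j - T k)
    have := hPF i j x hi hj
    rw [cr_sub_left, cr_sub_left]
    have e1 : cr (w i) (m x) - cr (w k) (m x) + (T i - T k) =
        (cr (w i) (m x) + T i) - (cr (w k) (m x) + T k) := by abel
    rw [e1, this]
    abel
  have hy0 : y = 0 := by
    by_contra hne
    have hn : 0 < ‖y‖ := norm_pos_iff.2 hne
    have hmem : (‖y‖⁻¹ : ℝ) • y ∈ S := by
      rw [hS, mem_sphere_zero_iff_norm, norm_smul, norm_inv, norm_norm, inv_mul_cancel₀ hn.ne']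
    have h1 : 0 < Phi P k (m, (‖y‖⁻¹ : ℝ) • y) := huv ⟨hm, hSv hmem⟩
    have h2 : Phi P k (m, (‖y‖⁻¹ : ℝ) • y) = 0 := by
      have e1 : (‖y‖⁻¹ : ℝ) • y =
        (fun i => (‖y‖⁻¹ : ℝ) • (w i - w k), fun i => (‖y‖⁻¹ : ℝ) • (T i - T k)) := rfl
      rw [e1]
      refine (Phi_zero k).2 ⟨?_, ?_, ?_⟩
      · intro i j x hi hj
        show cr ((‖y‖⁻¹ : ℝ) • (w i - w k)) (m x) + (‖y‖⁻¹ : ℝ) • (T i - T k) =
          cr ((‖y‖⁻¹ : ℝ) • (w j - w k)) (m x) + (‖y‖⁻¹ : ℝ) • (T j - T k)
        rw [cr_smul_left, cr_smul_left, ← smul_add, ← smul_add]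
        have := hPF' i j x hi hj
        exact congrArg _ this
      · show (‖y‖⁻¹ : ℝ) • (w k - w k) = 0
        rw [sub_self, smul_zero]
      · show (‖y‖⁻¹ : ℝ) • (T k - T k) = 0
        rw [sub_self, smul_zero]
    exact h1.ne' h2
  have hw : ∀ i, w i = w k := by
    intro i
    have : y.1 i = 0 := by rw [hy0]; rfl
    exact sub_eq_zero.1 this
  have hT : ∀ i, T i = T k := by
    intro i
    have : y.2 i = 0 := by rw [hy0]; rfl
    exact sub_eq_zero.1 this
  exact ⟨(hw i).trans (hw j).symm, (hT i).trans (hT j).symm⟩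

end Pool.Agent.W5h43.PP
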