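import Pool.Agent.W5h43.PP.Cross

/-! The cyclic order of the faces at a vertex. -/

set_option autoImplicit false

namespace Pool.Agent.W5h43.PP

open Pool.Agent.R118.PM Filter Topology

variable {ι : Type} [Fintype ι]

theorem n_ne_zero {P : R118.PM.Poly ι} (hP : IsPolyhedron P) {v : E3} {i : ι} (hi : v ∈ P.face i) :
    P.n i ≠ 0 := by
  intro h
  obtain ⟨x, hx⟩ := hP.interior
  have h1 := hx i
  have h2 := hi.2
  rw [h, inner_zero_left] at h1 h2
  linarith

theorem cr_n_ne_zero {P : R118.PM.Poly ι} (hP : IsPolyhedron P) {v : E3} {i j : ι} (hij : i ≠ j)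
    (hi : v ∈ P.face i) (hj : v ∈ P.face j) : cr (P.n i) (P.n j) ≠ 0 := by
  intro h
  obtain ⟨t, ht⟩ := smul_of_cr_zero h (n_ne_zero hP hj)
  have h1 := LinearIndependent.pair_iff.1 (indep hP hij hi hj) 1 (-t) (by
    rw [ht]; module)
  exact one_ne_zero h1.1

/-- the data of a vertex with a section plane close to it -/
structure Lvl (P : R118.PM.Poly ι) (v : E3) (c : ℝ) : Prop where
  lt : c < inner ℝ (nrm P v) v
  far : ∀ i, v ∉ P.face i → ∀ x ∈ P.face i, inner ℝ (nrm P v) x < c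
  int : ∃ y, (∀ i, inner ℝ (P.n i) y < P.b i) ∧ inner ℝ (nrm P v) y = c
  two : ∀ i, v ∈ P.face i → ∃ x ∈ P.face i, ∃ y ∈ P.face i, x ≠ y ∧
        inner ℝ (nrm P v) x = c ∧ inner ℝ (nrm P v) y = c

theorem exists_lvl {P : R118.PM.Poly ι} (hP : IsPolyhedron P) {v : E3}
    (hv : v ∈ P.body.extremePoints ℝ) : ∃ c, Lvl P v c := by
  obtain ⟨c, h1, h2, h3, h4⟩ := exists_level hP hv
  exact ⟨c, h1, h2, h3, h4⟩

section
variable {P : R118.PM.Poly ι} {v : E3} {c : ℝ}

theorem d_ne_zero (hP : IsPolyhedron P) (hL : Lvl P v c) {i : ι} (hi : v ∈ P.face i) :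
    cr (nrm P v) (P.n i) ≠ 0 := by
  intro h
  obtain ⟨t, ht⟩ := smul_of_cr_zero h (n_ne_zero hP hi)
  obtain ⟨x, hx, -, -, -, hxc, -⟩ := hL.two i hi
  have h1 := hL.lt
  rw [ht, inner_smul_left, hx.2] at hxc
  rw [ht, inner_smul_left, hi.2] at h1
  linarith

theorem side_dir (hP : IsPolyhedron P) (hL : Lvl P v c) {i : ι} (hi : v ∈ P.face i) {x y : E3}
    (hx : x ∈ P.face i) (hy : y ∈ P.face i) (hxc : inner ℝ (nrm P v) x = c)
    (hyc : inner ℝ (nrm P v) y = c) : ∃ s : ℝ, y - x = s • cr (nrm P v) (P.n i) := by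
  apply smul_cr _ _ (d_ne_zero hP hL hi)
  · rw [real_inner_comm, inner_sub_right, hxc, hyc, sub_self]
  · rw [real_inner_comm, inner_sub_right, hx.2, hy.2, sub_self]

/-- the two ends of a side of the section -/
theorem side (hP : IsPolyhedron P) (hL : Lvl P v c) {i : ι} (hi : v ∈ P.face i) :
    ∃ p q : E3, ∃ t : ℝ, p ∈ P.face i ∧ q ∈ P.face i ∧ inner ℝ (nrm P v) p = c ∧
      inner ℝ (nrm P v) q = c ∧ 0 < t ∧ q - p = t • cr (nrm P v) (P.n i) ∧
      ∀ y ∈ P.face i, inner ℝ (nrm P v) y = c → ∃ s : ℝ, 0 ≤ s ∧ s ≤ 1 ∧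
        y = p + s • (q - p) := by
  set a := nrm P v with ha
  set d := cr a (P.n i) with hd
  have hd0 : d ≠ 0 := d_ne_zero hP hL hi
  have hdd := inner_self_pos hd0
  set S : Set E3 := P.face i ∩ {x | inner ℝ a x = c} with hS
  have hcl : IsClosed S := (face_closed P i).inter (isClosed_eq (by fun_prop) continuous_const)
  have hcpt : IsCompact S := Metric.isCompact_of_isClosed_isBounded hcl
    (hP.bounded.subset (Set.inter_subset_left.trans (face_sub P i)))
  obtain ⟨x, hx, y, hy, hxy, hxc, hyc⟩ := hL.two i hi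
  have hne : S.Nonempty := ⟨x, hx, hxc⟩
  obtain ⟨p, hp, hpmin⟩ := hcpt.exists_isMinOn hne (f := fun z => (inner ℝ d z : ℝ)) (by fun_prop)
  obtain ⟨q, hq, hqmax⟩ := hcpt.exists_isMaxOn hne (f := fun z => (inner ℝ d z : ℝ)) (by fun_prop)
  obtain ⟨t, ht⟩ := side_dir hP hL hi hp.1 hq.1 hp.2 hq.2
  have key : ∀ z ∈ S, ∀ s : ℝ, z - p = s • d → 0 ≤ s ∧ s ≤ t := by
    intro z hz s hs
    have h1 : (inner ℝ d p : ℝ) ≤ inner ℝ d z := hpmin hz
    have h2 : (inner ℝ d z : ℝ) ≤ inner ℝ d q := hqmax hz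
    have h3 : (inner ℝ d z : ℝ) - inner ℝ d p = s * inner ℝ d d := by
      rw [← inner_sub_right, hs, inner_smul_right]
    have h4 : (inner ℝ d q : ℝ) - inner ℝ d p = t * inner ℝ d d := by
      rw [← inner_sub_right, ht, inner_smul_right]
    constructor
    · by_contra h; push Not at h; nlinarith
    · by_contra h; push Not at h; nlinarith
  have ht0 : 0 < t := by
    obtain ⟨s1, hs1⟩ := side_dir hP hL hi hp.1 hx hp.2 hxc
    obtain ⟨s2, hs2⟩ := side_dir hP hL hi hp.1 hy hp.2 hyc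
    have k1 := key x ⟨hx, hxc⟩ s1 hs1
    have k2 := key y ⟨hy, hyc⟩ s2 hs2
    rcases lt_or_eq_of_le (k1.1.trans k1.2) with h | h
    · exact h
    · exfalso
      have e1 : s1 = 0 := by linarith [k1.1, k1.2]
      have e2 : s2 = 0 := by linarith [k2.1, k2.2]
      rw [e1, zero_smul, sub_eq_zero] at hs1
      rw [e2, zero_smul, sub_eq_zero] at hs2
      exact hxy (hs1.trans hs2.symm)
  refine ⟨p, q, t, hp.1, hq.1, hp.2, hq.2, ht0, ht, ?_⟩
  intro z hz hzc
  obtain ⟨s, hs⟩ := side_dir hP hL hi hp.1 hz hp.2 hzc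
  have k := key z ⟨hz, hzc⟩ s hs
  refine ⟨s / t, div_nonneg k.1 ht0.le, (div_le_one ht0).2 k.2, ?_⟩
  rw [ht, smul_smul, div_mul_cancel₀ _ ht0.ne', ← hs]
  abel

/-- at an end `q` of a side there is another face -/
theorem exists_next (hL : Lvl P v c) {i : ι} {p q : E3}
    {t : ℝ} (hq : q ∈ P.face i) (hqc : inner ℝ (nrm P v) q = c)
    (htd : q - p = t • cr (nrm P v) (P.n i))
    (hmax : ∀ y ∈ P.face i, inner ℝ (nrm P v) y = c → ∃ s : ℝ, 0 ≤ s ∧ s ≤ 1 ∧
        y = p + s • (q - p)) (hpq : q ≠ p) :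
    ∃ j, j ≠ i ∧ v ∈ P.face j ∧ q ∈ P.face j := by
  by_contra hcon
  push Not at hcon
  have hlt : ∀ j, j ≠ i → inner ℝ (P.n j) q < P.b j := by
    intro j hj
    refine lt_of_le_of_ne (hq.1 j) fun h => ?_
    have hqj : q ∈ P.face j := ⟨hq.1, h⟩
    by_cases hvj : v ∈ P.face j
    · exact hcon j hj hvj hqj
    · exact (hL.far j hvj q hqj).ne hqc
  set d := q - p with hd
  have hd0 : d ≠ 0 := sub_ne_zero.2 hpq
  have hev : ∀ᶠ ε in 𝓝 (0 : ℝ), ∀ j, j ≠ i → inner ℝ (P.n j) (q + ε • d) < P.b j := by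
    rw [Filter.eventually_all]
    intro j
    by_cases hj : j = i
    · exact Filter.Eventually.of_forall fun _ h => absurd hj h
    · have hc : Continuous fun ε : ℝ => (inner ℝ (P.n j) (q + ε • d) : ℝ) := by fun_prop
      have h0 : (inner ℝ (P.n j) (q + (0 : ℝ) • d) : ℝ) < P.b j := by
        rw [zero_smul, add_zero]; exact hlt j hj
      filter_upwards [hc.continuousAt.eventually_lt continuousAt_const h0] with ε hε _
      exact hε
  have hev2 : ∀ᶠ ε in 𝓝[>] (0 : ℝ), ∀ j, j ≠ i → inner ℝ (P.n j) (q + ε • d) < P.b j :=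
    hev.filter_mono nhdsWithin_le_nhds
  obtain ⟨ε, hε1, hε2⟩ := (hev2.and self_mem_nhdsWithin).exists
  have hε0 : 0 < ε := hε2
  have hnd : inner ℝ (P.n i) d = (0 : ℝ) := by
    rw [htd, inner_smul_right, inner_cr_right, mul_zero]
  have had : inner ℝ (nrm P v) d = (0 : ℝ) := by
    rw [htd, inner_smul_right, inner_cr_left, mul_zero]
  have hyi : inner ℝ (P.n i) (q + ε • d) = P.b i := by
    rw [inner_add_right, inner_smul_right, hnd, mul_zero, add_zero, hq.2]
  have hyb : q + ε • d ∈ P.body := by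
    intro j
    by_cases hj : j = i
    · rw [hj, hyi]
    · exact (hε1 j hj).le
  obtain ⟨s, hs0, hs1, hs⟩ := hmax (q + ε • d) ⟨hyb, hyi⟩ (by
    rw [inner_add_right, inner_smul_right, had, mul_zero, add_zero, hqc])
  have h1 : (1 + ε - s) • d = 0 := by
    have : q + ε • d = p + s • d := hs
    have h2 : q = p + d := by rw [hd]; abel
    rw [h2] at this
    have h3 : (1 + ε - s) • d = (p + d + ε • d) - (p + s • d) := by module
    rw [h3, this, sub_self]
  rcases smul_eq_zero.1 h1 with h | h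
  · linarith
  · exact hd0 h

/-- the normals of two faces at a point of the section and the normal of the section are
independent -/
theorem triple_ne_zero (hP : IsPolyhedron P) (hL : Lvl P v c) {i j : ι} (hij : i ≠ j)
    (hi : v ∈ P.face i) (hj : v ∈ P.face j) {q : E3} (hqi : q ∈ P.face i) (hqj : q ∈ P.face j)
    (hqc : inner ℝ (nrm P v) q = c) :
    (inner ℝ (P.n j) (cr (nrm P v) (P.n i)) : ℝ) ≠ 0 := by
  intro h
  have hn := cr_n_ne_zero hP hij hi hj
  obtain ⟨s, hs⟩ := smul_cr (x := cr (nrm P v) (P.n i))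
    (by rw [real_inner_comm]; exact inner_cr_right _ _) (by rw [real_inner_comm]; exact h) hn
  obtain ⟨r, hr⟩ := smul_cr (x := q - v) (z := P.n i) (w := P.n j)
    (by rw [real_inner_comm, inner_sub_right, hqi.2, hi.2, sub_self])
    (by rw [real_inner_comm, inner_sub_right, hqj.2, hj.2, sub_self]) hn
  have hs0 : s ≠ 0 := by
    rintro rfl
    exact d_ne_zero hP hL hi (by rw [hs, zero_smul])
  have h1 : inner ℝ (nrm P v) (cr (P.n i) (P.n j)) = (0 : ℝ) := by
    have h2 := inner_cr_left (nrm P v) (P.n i)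
    rw [hs, inner_smul_right] at h2
    exact (mul_eq_zero.1 h2).resolve_left hs0
  have h3 : (inner ℝ (nrm P v) (q - v) : ℝ) = 0 := by
    rw [hr, inner_smul_right, h1, mul_zero]
  rw [inner_sub_right, hqc] at h3
  linarith [hL.lt]

theorem triple_anti (a b c : E3) : (inner ℝ b (cr a c) : ℝ) = -inner ℝ c (cr a b) := by
  rw [inner3, inner3, cr0, cr1, cr2, cr0, cr1, cr2]; ring

/-- moving from `q` in the direction `s • d i` inside the solid -/
theorem move_sign {i j : ι} {q y : E3} {s : ℝ} (hqj : q ∈ P.face j) (hy : y ∈ P.body)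
    (hyq : y = q + s • cr (nrm P v) (P.n i)) :
    s * inner ℝ (P.n j) (cr (nrm P v) (P.n i)) ≤ 0 := by
  have h1 := hy j
  rw [hyq, inner_add_right, hqj.2, inner_smul_right] at h1
  linarith

end

/-- The faces at a vertex in cyclic order: the side `i` of a section close to the vertex runs from
`p i` to `q i`, and the next side is `σ i`. -/
theorem star {P : R118.PM.Poly ι} (hP : IsPolyhedron P) {v : E3} {c : ℝ} (hL : Lvl P v c) :
    ∃ (p q : {i // v ∈ P.face i} → E3) (t : {i // v ∈ P.face i} → ℝ)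
      (σ : Equiv.Perm {i // v ∈ P.face i}),
      (∀ i : {i // v ∈ P.face i}, p i ∈ P.face i ∧ q i ∈ P.face i ∧ inner ℝ (nrm P v) (p i) = c ∧
        inner ℝ (nrm P v) (q i) = c ∧ 0 < t i ∧ q i - p i = t i • cr (nrm P v) (P.n i) ∧
        p (σ i) = q i ∧ (i : ι) ≠ σ i ∧ p i ∉ P.face (σ i) ∧ q i ≠ v ∧
        ∀ y ∈ P.face i, inner ℝ (nrm P v) y = c → ∃ s : ℝ, 0 ≤ s ∧ s ≤ 1 ∧
          y = p i + s • (q i - p i)) := by
  classical
  have hs := fun i : {i // v ∈ P.face i} => side hP hL i.2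
  choose p q t hp hq hpc hqc ht htd hmax using hs
  have hd := fun i : {i // v ∈ P.face i} => d_ne_zero hP hL i.2
  have hqp : ∀ i, q i ≠ p i := by
    intro i h
    have h1 := htd i
    rw [h, sub_self] at h1
    rcases smul_eq_zero.1 h1.symm with h2 | h2
    · exact (ht i).ne' h2
    · exact hd i h2
  have hnext : ∀ i : {i // v ∈ P.face i}, ∃ j : {i // v ∈ P.face i}, (i : ι) ≠ j ∧
      q i ∈ P.face j := by
    intro i
    obtain ⟨j, hji, hvj, hqj⟩ := exists_next hL (hq i) (hqc i) (htd i) (hmax i) (hqp i)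
    exact ⟨⟨j, hvj⟩, hji.symm, hqj⟩
  choose nx hnx hqnx using hnext
  -- the end of `i` is the start of the next one
  have hstart : ∀ i, p (nx i) = q i := by
    intro i
    have hne := triple_ne_zero hP hL (hnx i) i.2 (nx i).2 (hq i) (hqnx i) (hqc i)
    have h1 : (-t i) * inner ℝ (P.n (nx i)) (cr (nrm P v) (P.n i)) ≤ 0 := by
      refine move_sign (hqnx i) (hp i).1 ?_
      rw [neg_smul, ← htd i]; abel
    have h2 : 0 < (inner ℝ (P.n (nx i)) (cr (nrm P v) (P.n i)) : ℝ) := by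
      refine lt_of_le_of_ne ?_ hne.symm
      have := ht i
      by_contra h; push Not at h; nlinarith
    obtain ⟨s, hs0, hs1, hs⟩ := hmax (nx i) (q i) (hqnx i) (hqc i)
    have h3 : (-(s * t (nx i))) * inner ℝ (P.n i) (cr (nrm P v) (P.n (nx i))) ≤ 0 := by
      refine move_sign (hq i) (hp (nx i)).1 ?_
      rw [htd (nx i), smul_smul] at hs
      rw [neg_smul, ← sub_eq_add_neg]
      exact eq_sub_of_add_eq hs.symm
    rw [triple_anti] at h3
    have h4 : 0 ≤ s * t (nx i) := mul_nonneg hs0 (ht _).le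
    have h5 : s * t (nx i) = 0 := by
      by_contra h
      have h6 : 0 < s * t (nx i) := lt_of_le_of_ne h4 (Ne.symm h)
      nlinarith
    have h6 : s = 0 := (mul_eq_zero.1 h5).resolve_right (ht _).ne'
    rw [h6, zero_smul, add_zero] at hs
    exact hs.symm
  have hqinj : Function.Injective q := by
    intro i j hij
    by_contra hne
    have hne' : (i : ι) ≠ j := fun h => hne (Subtype.ext h)
    have hqj : q i ∈ P.face j := by rw [hij]; exact hq j
    have h0 := triple_ne_zero hP hL hne' i.2 j.2 (hq i) hqj (hqc i)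
    have h1 : (-t i) * inner ℝ (P.n j) (cr (nrm P v) (P.n i)) ≤ 0 := by
      refine move_sign hqj (hp i).1 ?_
      rw [neg_smul, ← htd i]; abel
    have h2 : (-t j) * inner ℝ (P.n i) (cr (nrm P v) (P.n j)) ≤ 0 := by
      refine move_sign (hq i) (hp j).1 ?_
      rw [neg_smul, ← htd j, hij]; abel
    rw [triple_anti] at h2
    have := ht i
    have := ht j
    rcases lt_or_gt_of_ne h0 with h | h <;> nlinarith
  have hnxinj : Function.Injective nx := by
    intro i j hij
    apply hqinj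
    rw [← hstart i, ← hstart j, hij]
  refine ⟨p, q, t, Equiv.ofBijective nx (Finite.injective_iff_bijective.1 hnxinj), fun i => ?_⟩
  refine ⟨hp i, hq i, hpc i, hqc i, ht i, htd i, hstart i, hnx i, ?_, ?_, hmax i⟩
  · intro h
    exact hqp i ((edge_sub hP (hnx i) i.2 (nx i).2 hL.lt.ne)
      ⟨⟨hq i, hqnx i⟩, hqc i⟩ ⟨⟨hp i, h⟩, hpc i⟩)
  · intro h
    have := hqc i
    rw [h] at this
    exact hL.lt.ne' this

end Pool.Agent.W5h43.PP
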